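import Pool.Agent.Helper925.SW.WPcf

/-!
# Rees quotients of free semigroups are `𝓙`-trivial and residually finite
-/

set_option autoImplicit false

namespace Pool.Agent.Helper925.SW

open Pool.Agent.Helper336.CF Pool.Agent.W399.WP

/-- `s` is a multiple of `t` (or equal to `t`). -/
def Below {S : Type} [Semigroup S] (s t : S) : Prop :=
  ∃ p q : WithOne S, (s : WithOne S) = p * (t : WithOne S) * q

/-- Elements which are multiples of each other are equal. -/
def JTrivial (S : Type) [Semigroup S] : Prop := ∀ s t : S, Below s t → Below t s → s = t

/-- Any two different elements have different images in some finite semigroup. -/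
def ResiduallyFinite (S : Type) [Semigroup S] : Prop :=
  ∀ s t : S, s ≠ t → ∃ (F : Type) (_ : Semigroup F) (_ : Finite F) (f : S →ₙ* F), f s ≠ f t

/-- `φ` generates `S`, there is a zero, and different words have different values unless both
values are zero. -/
def ReesFree {S A : Type} [Semigroup S] (φ : A → S) : Prop :=
  (∀ s : S, ∃ a u, ev φ a u = s) ∧ ∃ o : S, (∀ s, o * s = o ∧ s * o = o) ∧
    ∀ a u b v, ev φ a u = ev φ b v → a :: u = b :: v ∨ ev φ a u = o

section general

variable {A : Type} (I : List A → Prop) (hl : ∀ u v, I u → I (v ++ u)) (hr : ∀ u v, I u → I (u ++ v))

theorem mk_eq (x y : FreeSemigroup A) :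
    ((x : (rees I hl hr).Quotient) = (y : (rees I hl hr).Quotient)) ↔
      (x = y ∨ (I (toL x) ∧ I (toL y))) := Con.eq _

theorem reesFree (x0 : FreeSemigroup A) (h0 : I (toL x0)) : ReesFree (phi I hl hr) := by
  refine ⟨?_, (x0 : (rees I hl hr).Quotient), ?_, ?_⟩
  · intro s
    induction s using Con.induction_on with
    | H x => exact ⟨x.head, x.tail, ev_eq I hl hr _ _⟩
  · intro s
    induction s using Con.induction_on with
    | H x =>
      rw [← Con.coe_mul, ← Con.coe_mul, mk_eq, mk_eq]
      exact ⟨Or.inr ⟨by rw [toL_mul]; exact hr _ _ h0, h0⟩,
        Or.inr ⟨by rw [toL_mul]; exact hl _ _ h0, h0⟩⟩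
  · intro a u b v h
    rcases (ev_eq_iff I hl hr a b u v).1 h with h | h
    · exact Or.inl h
    · right
      rw [ev_eq, mk_eq]
      exact Or.inr ⟨h.1, h0⟩

/-- Multiples in terms of words. -/
theorem below_word (x y : FreeSemigroup A)
    (h : Below (x : (rees I hl hr).Quotient) (y : (rees I hl hr).Quotient)) :
    (∃ p s : List A, toL x = p ++ toL y ++ s) ∨ (I (toL x) ∧ ∃ p s, I (p ++ toL y ++ s)) := by
  obtain ⟨p, q, h⟩ := h
  induction p using WithOne.recOneCoe with
  | one =>
    induction q using WithOne.recOneCoe with
    | one =>
      rw [one_mul, mul_one, WithOne.coe_inj, mk_eq] at h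
      rcases h with rfl | h
      · exact Or.inl ⟨[], [], by simp⟩
      · exact Or.inr ⟨h.1, [], [], by simpa using h.2⟩
    | coe q =>
      induction q using Con.induction_on with
      | H q =>
        rw [one_mul, ← WithOne.coe_mul, WithOne.coe_inj, ← Con.coe_mul, mk_eq] at h
        rcases h with rfl | h
        · exact Or.inl ⟨[], toL q, by simp [toL_mul]⟩
        · exact Or.inr ⟨h.1, [], toL q, by simpa [toL_mul] using h.2⟩
  | coe p =>
    induction p using Con.induction_on with
    | H p =>
      induction q using WithOne.recOneCoe with
      | one =>
        rw [mul_one, ← WithOne.coe_mul, WithOne.coe_inj, ← Con.coe_mul, mk_eq] at h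
        rcases h with rfl | h
        · exact Or.inl ⟨toL p, [], by simp [toL_mul]⟩
        · exact Or.inr ⟨h.1, toL p, [], by simpa [toL_mul] using h.2⟩
      | coe q =>
        induction q using Con.induction_on with
        | H q =>
          rw [← WithOne.coe_mul, ← WithOne.coe_mul, WithOne.coe_inj, ← Con.coe_mul, ← Con.coe_mul,
            mk_eq] at h
          rcases h with rfl | h
          · exact Or.inl ⟨toL p, toL q, by simp [toL_mul]⟩
          · exact Or.inr ⟨h.1, toL p, toL q, by simpa [toL_mul] using h.2⟩

theorem jTrivial : JTrivial (RQ I hl hr) := by
  intro s t
  induction s using Con.induction_on with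
  | H x =>
    induction t using Con.induction_on with
    | H y =>
      intro h1 h2
      rw [mk_eq]
      by_cases hx : I (toL x)
      · right
        refine ⟨hx, ?_⟩
        rcases below_word I hl hr y x h2 with ⟨p, s, h⟩ | h
        · rw [h]
          exact hr _ _ (hl _ _ hx)
        · exact h.1
      · rcases below_word I hl hr x y h1 with ⟨p, s, h⟩ | h
        · rcases below_word I hl hr y x h2 with ⟨p', s', h'⟩ | h'
          · left
            have e1 := congrArg List.length h
            have e2 := congrArg List.length h'
            simp only [List.length_append] at e1 e2
            have hp : p = [] := List.length_eq_zero_iff.1 (by omega)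
            have hs : s = [] := List.length_eq_zero_iff.1 (by omega)
            subst hp; subst hs
            exact toL_inj (by simpa using h)
          · exfalso
            apply hx
            rw [h]
            exact hr _ _ (hl _ _ h'.1)
        · exact absurd h.1 hx

theorem residuallyFinite [Finite A] : ResiduallyFinite (RQ I hl hr) := by
  intro s t
  induction s using Con.induction_on with
  | H x =>
    induction t using Con.induction_on with
    | H y =>
      intro hne
      set n := max (toL x).length (toL y).length with hn
      let I' : List A → Prop := fun u => I u ∨ n < u.length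
      have hl' : ∀ u v, I' u → I' (v ++ u) := by
        rintro u v (h | h)
        · exact Or.inl (hl _ _ h)
        · right
          simp only [List.length_append]
          omega
      have hr' : ∀ u v, I' u → I' (u ++ v) := by
        rintro u v (h | h)
        · exact Or.inl (hr _ _ h)
        · right
          simp only [List.length_append]
          omega
      have hle : rees I hl hr ≤ rees I' hl' hr' := by
        intro a b h
        rcases h with h | h
        · exact Or.inl h
        · exact Or.inr ⟨Or.inl h.1, Or.inl h.2⟩
      let f : RQ I hl hr →ₙ* (rees I' hl' hr').Quotient :=
        { toFun := fun q => Con.liftOn q (fun a => (a : (rees I' hl' hr').Quotient))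
            (fun a b h => (Con.eq _).2 (hle h))
          map_mul' := by
            intro a b
            induction a using Con.induction_on with
            | H a =>
              induction b using Con.induction_on with
              | H b => rfl }
      refine ⟨(rees I' hl' hr').Quotient, inferInstance, ?_, f, ?_⟩
      · -- finiteness
        have hfin : Finite {u : List A // u.length ≤ n} :=
          (List.finite_length_le A n)
        let g : Option {u : List A // u.length ≤ n} → Set (FreeSemigroup A) := fun o =>
          match o with
          | none => {z | I' (toL z)}
          | some u => {z | toL z = u.1}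
        classical
        let k : (rees I' hl' hr').Quotient → Option {u : List A // u.length ≤ n} := fun q =>
          if h : ∃ z : FreeSemigroup A, (z : (rees I' hl' hr').Quotient) = q ∧ ¬ I' (toL z) then
            some ⟨toL h.choose, by
              have := h.choose_spec.2
              by_contra hc
              exact this (Or.inr (by omega))⟩
          else none
        refine Finite.of_injective k ?_
        intro q q' hq
        induction q using Con.induction_on with
        | H z =>
          induction q' using Con.induction_on with
          | H z' =>
            by_cases h : ∃ w : FreeSemigroup A, (w : (rees I' hl' hr').Quotient) = z ∧ ¬ I' (toL w)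
            · by_cases h' : ∃ w : FreeSemigroup A,
                (w : (rees I' hl' hr').Quotient) = z' ∧ ¬ I' (toL w)
              · simp only [k, dif_pos h, dif_pos h', Option.some.injEq, Subtype.mk.injEq] at hq
                have := toL_inj hq
                rw [← h.choose_spec.1, ← h'.choose_spec.1, this]
              · simp only [k, dif_pos h, dif_neg h'] at hq
                cases hq
            · by_cases h' : ∃ w : FreeSemigroup A,
                (w : (rees I' hl' hr').Quotient) = z' ∧ ¬ I' (toL w)
              · simp only [k, dif_neg h, dif_pos h'] at hq
                cases hq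
              · rw [mk_eq]
                right
                constructor
                · by_contra hc
                  exact h ⟨z, rfl, hc⟩
                · by_contra hc
                  exact h' ⟨z', rfl, hc⟩
      · intro h
        apply hne
        have h1 : ((x : (rees I' hl' hr').Quotient) = (y : (rees I' hl' hr').Quotient)) := h
        rw [mk_eq] at h1 ⊢
        rcases h1 with h1 | ⟨h1 | h1, h2 | h2⟩
        · exact Or.inl h1
        · exact Or.inr ⟨h1, h2⟩
        · exfalso; omega
        · exfalso; omega
        · exfalso; omega

end general

end Pool.Agent.Helper925.SW
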