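import Pool.Agent.Helper925.SW.Code
import Pool.Agent.Helper925.SW.Props

/-!
# A two-generated semigroup with a hardest context-free word problem
-/

set_option autoImplicit false

namespace Pool.Agent.Helper925.SW

open Pool.Agent.Helper336.CF Pool.Agent.Helper79.Trans Pool.Agent.W399.WP

/-- Images under homomorphisms. -/
theorem cf_flatMap {A B : Type} [Fintype A] (c : A → List B) {L : Set (List A)} (h : IsCF L) :
    IsCF {w : List B | ∃ v ∈ L, w = v.flatMap c} := by
  classical
  obtain ⟨g, hg⟩ := h
  have hg' : ∀ v, v ∈ g.language ↔ v ∈ L := by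
    intro v
    have : (g.language : Set (List A)) = L := hg
    rw [← this]; exact Iff.rfl
  let D : Finset (Unit × A × List B × Unit) := Finset.univ.image fun a : A => ((), a, c a, ())
  let E : Finset (Unit × List B × Unit) := ∅
  have hrun' : ∀ (q q' : Unit) (v : List A) (w : List B), Run D E q v w q' ↔ w = v.flatMap c := by
    intro q q' v w
    constructor
    · intro h
      induction h with
      | nil q => rfl
      | eps q w₁ p v w q' hE _ ih => simp [E] at hE
      | read q b w₁ p v w q' hD _ ih =>
        simp only [D, Finset.mem_image, Finset.mem_univ, true_and, Prod.mk.injEq] at hD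
        obtain ⟨a, h1, h2⟩ := hD
        rw [ih, List.flatMap_cons]
        simp_all
    · rintro rfl
      induction v with
      | nil => exact Run.nil _
      | cons a v ih =>
        rw [List.flatMap_cons]
        exact Run.read () a (c a) () v _ () (by simp [D]) ih
  have hrun : ∀ (v : List A) (w : List B), Run D E () v w () ↔ w = v.flatMap c := hrun' () ()
  refine ⟨image D E g Finset.univ () {()}, ?_⟩
  ext w
  rw [image_language D E g Finset.univ () {()} (by simp) (by simp) (by simp)]
  constructor
  · rintro ⟨v, hv, qf, _, h⟩
    exact ⟨v, (hg' v).1 hv, (hrun v w).1 h⟩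
  · rintro ⟨v, hv, h⟩
    exact ⟨v, (hg' v).2 hv, (), by simp, (hrun v w).2 h⟩

/-- A number for each letter. -/
noncomputable def num (x : G7) : ℕ := (Fintype.equivFin G7 x : Fin _)

theorem num_inj {x y : G7} (h : num x = num y) : x = y :=
  (Fintype.equivFin G7).injective (Fin.ext h)

/-- The code `0…01` of a letter. -/
noncomputable def cd (x : G7) : List Bool := List.replicate (num x + 1) false ++ [true]

/-- The binary word `11 c(w) 1`. -/
noncomputable def K (w : List G7) : List Bool := [true, true] ++ w.flatMap cd ++ [true]

theorem rep_inj {i j : ℕ} {s t : List Bool}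
    (h : List.replicate i false ++ true :: s = List.replicate j false ++ true :: t) :
    i = j ∧ s = t := by
  apply code_inj (s := s) (t := t)
  simp only [code, List.cons_append, List.append_assoc, List.nil_append, h]

theorem prefix_inj (w : List G7) : ∀ (w' : List G7) (s : List Bool),
    w'.flatMap cd ++ [true] = w.flatMap cd ++ true :: s → w' = w := by
  induction w with
  | nil =>
    intro w' s h
    cases w' with
    | nil => rfl
    | cons x w' =>
      simp [cd, List.replicate_succ] at h
  | cons y w ih =>
    intro w' s h
    cases w' with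
    | nil => simp [cd, List.replicate_succ] at h
    | cons x w' =>
      simp only [List.flatMap_cons, cd, List.append_assoc, List.cons_append, List.nil_append] at h
      obtain ⟨h1, h2⟩ := rep_inj h
      have h3 : num x = num y := by omega
      rw [num_inj h3, ih w' s h2]

theorem zeros_split (n : ℕ) (z q y : List Bool)
    (h : List.replicate n false ++ true :: z = q ++ true :: true :: y) :
    ∃ q', true :: z = q' ++ true :: true :: y := by
  induction n generalizing q with
  | zero => exact ⟨q, by simpa using h⟩
  | succ n ih =>
    cases q with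
    | nil => simp [List.replicate_succ] at h
    | cons b q =>
      simp only [List.replicate_succ, List.cons_append, List.cons.injEq] at h
      exact ih q h.2

theorem no_inner (w : List G7) : ∀ (q y : List Bool), y ≠ [] →
    true :: (w.flatMap cd ++ [true]) ≠ q ++ true :: true :: y := by
  induction w with
  | nil =>
    intro q y hy h
    have h1 := congrArg List.length h
    simp only [List.flatMap_nil, List.nil_append, List.length_cons, List.length_nil,
      List.length_append] at h1
    have : 0 < y.length := List.length_pos_iff.2 hy
    omega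
  | cons x w ih =>
    intro q y hy h
    cases q with
    | nil =>
      simp [cd, List.replicate_succ] at h
    | cons b q =>
      simp only [List.flatMap_cons, cd, List.append_assoc, List.cons_append, List.nil_append,
        List.cons.injEq] at h
      obtain ⟨q', h2⟩ := zeros_split _ _ _ _ h.2
      exact ih q' y hy h2

theorem K_factor {w w' : List G7} {p s : List Bool} (h : K w' = p ++ K w ++ s) : w' = w := by
  simp only [K, List.cons_append, List.nil_append, List.append_assoc] at h
  cases p with
  | nil =>
    simp only [List.nil_append, List.cons.injEq, true_and] at h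
    exact prefix_inj w w' s h
  | cons b p =>
    exfalso
    simp only [List.cons_append, List.cons.injEq] at h
    exact no_inner w' p (w.flatMap cd ++ true :: s) (by simp) h.2

/-- The ideal of all binary words with a factor `K w`, `w ∈ L0`. -/
def IB (u : List Bool) : Prop := ∃ (p s : List Bool) (w : List G7), w ∈ L0 ∧ u = p ++ K w ++ s

theorem IB_left (u v : List Bool) (h : IB u) : IB (v ++ u) := by
  obtain ⟨p, s, w, hw, rfl⟩ := h
  exact ⟨v ++ p, s, w, hw, by simp⟩

theorem IB_right (u v : List Bool) (h : IB u) : IB (u ++ v) := by
  obtain ⟨p, s, w, hw, rfl⟩ := h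
  exact ⟨p, s ++ v, w, hw, by simp⟩

theorem IB_K (w : List G7) : IB (K w) ↔ w ∈ L0 := by
  constructor
  · rintro ⟨p, s, w', hw', h⟩
    rw [K_factor h]; exact hw'
  · intro h
    exact ⟨[], [], w, h, by simp⟩

theorem nil_mem_L0 : ([] : List G7) ∈ L0 := (mem_L0 _).2 ⟨[], rfl, Sel.nil⟩

theorem IB_nil : ¬ IB [] := by
  rintro ⟨p, s, w, _, h⟩
  simp [K] at h

theorem IB_cf : IsCF {u | IB u} := by
  have hS := cf_all Bool
  have hL := cf_flatMap cd l0_cf
  have h2 := cf_cat hS (cf_cat (cf_singleton [true, true]) (cf_cat hL
    (cf_cat (cf_singleton [true]) hS)))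
  convert h2 using 1
  ext u
  constructor
  · rintro ⟨p, s, w, hw, rfl⟩
    refine ⟨p, trivial, _, ⟨[true, true], rfl, _, ⟨w.flatMap cd, ⟨w, hw, rfl⟩, _,
      ⟨[true], rfl, s, trivial, rfl⟩, rfl⟩, rfl⟩, ?_⟩
    simp [K]
  · rintro ⟨p, _, _, ⟨_, rfl, _, ⟨_, ⟨w, hw, rfl⟩, _, ⟨_, rfl, s, _, rfl⟩, rfl⟩, rfl⟩, rfl⟩
    exact ⟨p, s, w, hw, by simp [K]⟩

/-- The semigroup. -/
abbrev S0 : Type := RQ IB IB_left IB_right

/-- Its two generators. -/
def phi0 : Bool → S0 := phi IB IB_left IB_right

theorem split_none {A : Type} {u u' : List A} {r r' : List (Option A)}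
    (h : u.map some ++ none :: r = u'.map some ++ none :: r') : u = u' ∧ r = r' := by
  induction u generalizing u' with
  | nil =>
    cases u' with
    | nil => simpa using h
    | cons a u' => simp at h
  | cons b u ih =>
    cases u' with
    | nil => simp at h
    | cons a u' =>
      simp only [List.map_cons, List.cons_append, List.cons.injEq, Option.some.injEq] at h
      obtain ⟨h1, h2⟩ := ih h.2
      exact ⟨by rw [h.1, h1], h2⟩

/-- The question whether `K w` is zero. -/
theorem mem_wp0 (w : List G7) :
    (K w).map some ++ none :: ((K []).reverse).map some ∈ WordProblem phi0 ↔ w ∈ L0 := by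
  rw [show phi0 = phi IB IB_left IB_right from rfl, mem_wp, ← IB_K]
  constructor
  · rintro ⟨u, v, _, _, h1, h2⟩
    obtain ⟨rfl, h3⟩ := split_none h2
    have h4 : K [] = v := by
      have := List.map_injective_iff.2 (Option.some_injective Bool) h3
      exact List.reverse_injective this
    subst h4
    rcases h1 with h1 | h1
    · rw [h1]; exact (IB_K []).2 nil_mem_L0
    · exact h1.1
  · intro h
    exact ⟨K w, K [], by simp [K], by simp [K], Or.inr ⟨h, (IB_K []).2 nil_mem_L0⟩, rfl⟩

theorem wp0_cf : (WordProblem phi0).IsContextFree := wp_cf IB IB_left IB_right IB_cf IB_nil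

theorem reesFree0 : ReesFree phi0 := by
  refine reesFree IB IB_left IB_right ⟨true, [true, true]⟩ ?_
  have h : toL (⟨true, [true, true]⟩ : FreeSemigroup Bool) = K [] := by simp [toL, K]
  rw [h]
  exact (IB_K []).2 nil_mem_L0

/-- Every context-free language is an inverse image of the word problem. -/
theorem universal {T : Type} {L : Language T} (hL : L.IsContextFree) :
    ∃ (x y : List (Option Bool)) (h : T → List (Option Bool)), ∀ w : List T,
      w ∈ L ↔ x ++ w.flatMap h ++ y ∈ WordProblem phi0 := by
  obtain ⟨x, h, hx⟩ := hardest (L := (L : Set (List T))) hL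
  refine ⟨([true, true] ++ x.flatMap cd).map some,
    [some true] ++ none :: ((K []).reverse).map some, fun a => ((h a).flatMap cd).map some, ?_⟩
  intro w
  have h1 : w ∈ L ↔ x ++ w.flatMap h ∈ L0 := hx w
  rw [h1, ← mem_wp0]
  have h2 : (K (x ++ w.flatMap h)).map some =
      ([true, true] ++ x.flatMap cd).map some ++ w.flatMap (fun a => ((h a).flatMap cd).map some) ++
        [some true] := by
    have h3 : (w.flatMap h).flatMap cd = w.flatMap (fun a => (h a).flatMap cd) := by
      rw [List.flatMap_assoc]
    have h4 : (w.flatMap (fun a => (h a).flatMap cd)).map some =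
        w.flatMap (fun a => ((h a).flatMap cd).map some) := by
      rw [List.map_flatMap]
    simp only [K, List.flatMap_append, List.map_append, h3, h4, List.append_assoc]
    rfl
  rw [h2]
  simp only [List.append_assoc, List.cons_append, List.nil_append]

end Pool.Agent.Helper925.SW
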