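import Mathlib

/-!
# Deterministic two-way multi-head automata: inverse images under `w ↦ x h(w) y`
-/

set_option autoImplicit false

namespace Pool.Agent.Helper925.SW

/-- The position after a move: `0` to the left, `1` stay, `2` to the right, for a word of length `n`
with positions `0, …, n + 1`. -/
def apm (n : ℕ) (m : Fin 3) (p : ℕ) : ℕ :=
  if m = 0 then p - 1 else if m = 1 then p else min (p + 1) (n + 1)

/-- What a head sees. -/
def sym {A : Type} (w : List A) (p : ℕ) : Bool × Option A := (decide (p = 0), w[p - 1]?)

/-- The language is accepted by a deterministic two-way automaton with `k` heads on the input between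
end markers. -/
def MultiHead {A : Type} (L : Language A) : Prop :=
  ∃ (Q : Type) (_ : Finite Q) (k : ℕ)
    (δ : Q → (Fin k → Bool × Option A) → Q × (Fin k → Fin 3)) (q₀ : Q) (acc : Set Q),
    ∀ w : List A, w ∈ L ↔
      ∃ (q : Q) (h : Fin k → ℕ), q ∈ acc ∧
        Relation.ReflTransGen
          (fun (c c' : Q × (Fin k → ℕ)) =>
            c' = ((δ c.1 (fun j => (decide (c.2 j = 0), w[c.2 j - 1]?))).1,
              fun i =>
                if (δ c.1 (fun j => (decide (c.2 j = 0), w[c.2 j - 1]?))).2 i = 0 then c.2 i - 1
                else if (δ c.1 (fun j => (decide (c.2 j = 0), w[c.2 j - 1]?))).2 i = 1 then c.2 i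
                else min (c.2 i + 1) (w.length + 1)))
          (q₀, fun _ => 0) (q, h)

section

variable {A B : Type} (x y : List B) (h : A → List B)

/-- The length of the part of `x h(w) y` with its end markers which belongs to a symbol. -/
def ln : Bool × Option A → ℕ
  | (true, _) => x.length + 1
  | (false, some a) => (h a).length
  | (false, none) => y.length + 1

/-- What is seen at the `i`-th place of this part. -/
def rd : Bool × Option A → ℕ → Bool × Option B
  | (true, _), i => (decide (i = 0), x[i - 1]?)
  | (false, some a), i => (false, (h a)[i]?)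
  | (false, none), i => (false, y[i]?)

/-- The place in this part; `none` is the last place. -/
def rs {N : ℕ} (l : ℕ) : Option (Fin (N + 1)) → ℕ
  | none => l - 1
  | some i => i

/-- A bounded number. -/
def mkf (N i : ℕ) : Fin (N + 1) := ⟨min i N, by omega⟩

/-- The simulated move. -/
def mv (N : ℕ) (s : Bool × Option A) (i : ℕ) (m : Fin 3) : Fin 3 × Option (Fin (N + 1)) :=
  if m = 0 then
    if i = 0 then (if s.1 = true then (1, some (mkf N 0)) else (0, none)) else (1, some (mkf N (i - 1)))
  else if m = 1 then (1, some (mkf N i))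
  else if i + 1 < ln x y h s then (1, some (mkf N (i + 1)))
  else if s.1 = false ∧ s.2 = none then (1, some (mkf N i))
  else (2, some (mkf N 0))

/-- The first place of the part which belongs to a position. -/
def str (w : List A) (P : ℕ) : ℕ :=
  if P = 0 then 0 else 1 + x.length + ((w.take (P - 1)).flatMap h).length

theorem str_zero (w : List A) : str x h w 0 = 0 := by simp [str]

theorem str_succ (w : List A) (P : ℕ) (hP : P ≤ w.length) :
    str x h w (P + 1) = str x h w P + ln x y h (sym w P) := by
  cases P with
  | zero => simp [str, sym, ln]; omega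
  | succ P =>
    have h1 : w[P]? = some w[P] := List.getElem?_eq_getElem (by omega)
    have h2 : w.take (P + 1) = w.take P ++ [w[P]] := by
      rw [List.take_add_one, h1]; rfl
    simp only [str, sym, Nat.succ_ne_zero, if_false, Nat.add_sub_cancel, decide_false, h1, ln, h2,
      List.flatMap_append, List.length_append, List.flatMap_cons, List.flatMap_nil, List.append_nil]
    omega

theorem str_last (w : List A) :
    str x h w (w.length + 1) + y.length = (x ++ w.flatMap h ++ y).length + 1 := by
  simp only [str, Nat.succ_ne_zero, if_false, Nat.add_sub_cancel, List.take_length,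
    List.length_append]
  omega

theorem sym_last (w : List A) : sym w (w.length + 1) = (false, none) := by
  simp [sym]

theorem read_eq (hx : x ≠ []) (w : List A) (P i : ℕ) (hP : P ≤ w.length + 1)
    (hi : i < ln x y h (sym w P)) :
    sym (x ++ w.flatMap h ++ y) (str x h w P + i) = rd x y h (sym w P) i := by
  have hx' : 0 < x.length := List.length_pos_iff.2 hx
  cases P with
  | zero =>
    simp only [sym, decide_true, ln] at hi
    simp only [sym, decide_true, rd, str_zero, Nat.zero_add, Prod.mk.injEq, true_and]
    rw [List.append_assoc, List.getElem?_append_left (by omega)]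
  | succ P =>
    rcases Nat.lt_or_ge P w.length with h1 | h1
    · have h2 : w[P]? = some w[P] := List.getElem?_eq_getElem (by omega)
      have h3 : w = w.take P ++ w[P] :: w.drop (P + 1) := by
        rw [← List.drop_eq_getElem_cons h1, List.take_append_drop]
      have h4 : x ++ w.flatMap h ++ y = (x ++ (w.take P).flatMap h) ++
          (h w[P] ++ ((w.drop (P + 1)).flatMap h ++ y)) := by
        conv_lhs => rw [h3]
        simp only [List.flatMap_append, List.flatMap_cons, List.append_assoc]
      simp only [sym, Nat.add_sub_cancel, h2, Nat.succ_ne_zero, decide_false, ln] at hi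
      have h5 : str x h w (P + 1) + i - 1 = (x ++ (w.take P).flatMap h).length + i := by
        simp only [str, Nat.succ_ne_zero, if_false, Nat.add_sub_cancel, List.length_append]
        omega
      have h6 : str x h w (P + 1) + i ≠ 0 := by
        simp only [str, Nat.succ_ne_zero, if_false]
        omega
      simp only [sym, h5, h6, decide_false, Nat.add_sub_cancel, h2, Nat.succ_ne_zero, rd, h4]
      rw [List.getElem?_append_right (by omega), Nat.add_sub_cancel_left,
        List.getElem?_append_left hi]
    · have hP' : P = w.length := by omega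
      subst hP'
      have h5 : str x h w (w.length + 1) + i - 1 = (x ++ w.flatMap h).length + i := by
        simp only [str, Nat.succ_ne_zero, if_false, Nat.add_sub_cancel, List.length_append,
          List.take_length]
        omega
      have h6 : str x h w (w.length + 1) + i ≠ 0 := by
        simp only [str, Nat.succ_ne_zero, if_false]
        omega
      rw [sym_last, rd]
      simp only [sym, h5, h6, decide_false]
      rw [List.getElem?_append_right (by omega), Nat.add_sub_cancel_left]

/-- The position which is simulated. -/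
def pos {N : ℕ} (w : List A) (P : ℕ) (o : Option (Fin (N + 1))) : ℕ :=
  str x h w P + rs (ln x y h (sym w P)) o

/-- A correct state of one head. -/
def Ok {N : ℕ} (w : List A) (P : ℕ) (o : Option (Fin (N + 1))) : Prop :=
  P ≤ w.length + 1 ∧ rs (ln x y h (sym w P)) o < ln x y h (sym w P)

theorem str_le (hpos : ∀ s, 0 < ln x y h s) (w : List A) (P : ℕ) (hP : P ≤ w.length + 1) :
    str x h w P + ln x y h (sym w P) ≤ (x ++ w.flatMap h ++ y).length + 2 := by
  have hmono : ∀ n P', P' + n = w.length + 1 →
      str x h w P' + ln x y h (sym w P') ≤ str x h w (w.length + 1) + (y.length + 1) := by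
    intro n
    induction n with
    | zero =>
      intro P' hP'
      have : P' = w.length + 1 := by omega
      subst this
      rw [sym_last]
      simp [ln]
    | succ n ih =>
      intro P' hP'
      have h1 := ih (P' + 1) (by omega)
      rw [str_succ x y h w P' (by omega)] at h1
      have := hpos (sym w (P' + 1))
      omega
  have h1 := hmono (w.length + 1 - P) P (by omega)
  have h2 := str_last x y h w
  omega

theorem move_eq {N : ℕ} (hN : ∀ s, ln x y h s ≤ N) (hpos : ∀ s, 0 < ln x y h s) (w : List A)
    (P : ℕ) (o : Option (Fin (N + 1))) (hok : Ok x y h w P o) (m : Fin 3) :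
    Ok x y h w (apm w.length (mv x y h N (sym w P) (rs (ln x y h (sym w P)) o) m).1 P)
      (mv x y h N (sym w P) (rs (ln x y h (sym w P)) o) m).2 ∧
    pos x y h w (apm w.length (mv x y h N (sym w P) (rs (ln x y h (sym w P)) o) m).1 P)
      (mv x y h N (sym w P) (rs (ln x y h (sym w P)) o) m).2 =
      apm (x ++ w.flatMap h ++ y).length m (pos x y h w P o) := by
  obtain ⟨hP, hi⟩ := hok
  have hA : ∀ P, P ≤ w.length + 1 →
      str x h w P + ln x y h (sym w P) ≤ (x ++ w.flatMap h ++ y).length + 2 :=
    fun P hP => str_le x y h hpos w P hP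
  have hlastV := str_last x y h w
  unfold pos
  generalize (x ++ w.flatMap h ++ y).length = V at hA hlastV ⊢
  generalize hri : rs (ln x y h (sym w P)) o = i at hi ⊢
  have hmk : ∀ j, j ≤ i + 1 → j < ln x y h (sym w P) → ((mkf N j : Fin (N + 1)) : ℕ) = j := by
    intro j _ hj
    have := hN (sym w P)
    simp only [mkf]
    omega
  have hN0 : ((mkf N 0 : Fin (N + 1)) : ℕ) = 0 := by simp [mkf]
  have hAP := hA P hP
  by_cases hm0 : m = 0
  · subst hm0
    have e0 : ∀ n p, apm n 0 p = p - 1 := fun n p => by simp [apm]
    have e1 : ∀ n p, apm n 1 p = p := fun n p => by simp [apm]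
    rw [e0]
    by_cases hi0 : i = 0
    · by_cases hP0 : P = 0
      · subst hP0
        have hs : (sym w 0).1 = true := by simp [sym]
        have hmv : mv x y h N (sym w 0) i 0 = (1, some (mkf N 0)) := by
          simp [mv, hi0, hs]
        rw [hmv]
        simp only [e1]
        refine ⟨⟨by omega, ?_⟩, ?_⟩
        · simp only [rs, hN0]; exact hpos _
        · simp only [rs, hN0, str_zero]; omega
      · have hs : (sym w P).1 = false := by simp [sym, hP0]
        have hmv : mv x y h N (sym w P) i 0 = (0, none) := by
          simp [mv, hi0, hs]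
        rw [hmv]
        simp only [e0]
        obtain ⟨P', rfl⟩ : ∃ P', P = P' + 1 := ⟨P - 1, by omega⟩
        have h1 := str_succ x y h w P' (by omega)
        have h2 := hpos (sym w P')
        refine ⟨⟨by omega, ?_⟩, ?_⟩
        · simp only [rs, Nat.add_sub_cancel]; omega
        · simp only [rs, Nat.add_sub_cancel]; omega
    · have hmv : mv x y h N (sym w P) i 0 = (1, some (mkf N (i - 1))) := by
        simp [mv, hi0]
      rw [hmv]
      simp only [e1]
      have h1 := hmk (i - 1) (by omega) (by omega)
      refine ⟨⟨hP, ?_⟩, ?_⟩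
      · simp only [rs, h1]; omega
      · simp only [rs, h1]; omega
  · by_cases hm1 : m = 1
    · subst hm1
      have h1 := hmk i (by omega) hi
      have e1 : ∀ n p, apm n 1 p = p := fun n p => by simp [apm]
      have hmv : mv x y h N (sym w P) i 1 = (1, some (mkf N i)) := by
        simp [mv]
      rw [hmv]
      simp only [e1]
      refine ⟨⟨hP, ?_⟩, ?_⟩
      · simp only [rs, h1]; exact hi
      · simp only [rs, h1]
    · have hm2 : m = 2 := by
        revert hm0 hm1; revert m; decide
      subst hm2
      have e1 : ∀ n p, apm n 1 p = p := fun n p => by simp [apm]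
      have e2 : ∀ n p, apm n 2 p = min (p + 1) (n + 1) := fun n p => by
        simp only [apm]
        rw [if_neg (by decide), if_neg (by decide)]
      rw [e2]
      have hmv0 : mv x y h N (sym w P) i 2 =
          if i + 1 < ln x y h (sym w P) then (1, some (mkf N (i + 1)))
          else if (sym w P).1 = false ∧ (sym w P).2 = none then (1, some (mkf N i))
          else (2, some (mkf N 0)) := by
        simp only [mv]
        rw [if_neg (by decide), if_neg (by decide)]
      by_cases hi1 : i + 1 < ln x y h (sym w P)
      · have h1 := hmk (i + 1) le_rfl hi1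
        rw [hmv0, if_pos hi1]
        simp only [e1]
        refine ⟨⟨hP, ?_⟩, ?_⟩
        · simp only [rs, h1]; exact hi1
        · simp only [rs, h1]; omega
      · by_cases hlast : (sym w P).1 = false ∧ (sym w P).2 = none
        · have hPl : P = w.length + 1 := by
            obtain ⟨h1, h2⟩ := hlast
            simp only [sym, decide_eq_false_iff_not, List.getElem?_eq_none_iff] at h1 h2
            omega
          have h1 := hmk i (by omega) hi
          have h2 : ln x y h (sym w P) = y.length + 1 := by rw [hPl, sym_last]; rfl
          rw [hmv0, if_neg hi1, if_pos hlast]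
          simp only [e1]
          refine ⟨⟨hP, ?_⟩, ?_⟩
          · simp only [rs, h1]; exact hi
          · simp only [rs, h1]
            rw [h2] at hi1 hi
            subst hPl
            omega
        · have hPl : P ≤ w.length := by
            by_contra hc
            apply hlast
            have : P = w.length + 1 := by omega
            subst this
            rw [sym_last]; exact ⟨rfl, rfl⟩
          have h1 := str_succ x y h w P hPl
          have h2 : min (P + 1) (w.length + 1) = P + 1 := by omega
          rw [hmv0, if_neg hi1, if_neg hlast]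
          simp only [e2, h2]
          have h3 := hA (P + 1) (by omega)
          have h4 := hpos (sym w (P + 1))
          refine ⟨⟨by omega, ?_⟩, ?_⟩
          · simp only [rs, hN0]; exact h4
          · simp only [rs, hN0]; omega

end

/-- Two deterministic systems, one of which simulates the other. -/
theorem simulate {C C' : Type} (st : C → C) (st' : C' → C') (φ : C' → C) (Inv : C' → Prop)
    (hs : ∀ c, Inv c → Inv (st' c) ∧ φ (st' c) = st (φ c)) (c₀ : C') (h0 : Inv c₀) (T : C → Prop) :
    (∃ c, T c ∧ Relation.ReflTransGen (fun c c' => c' = st c) (φ c₀) c) ↔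
      ∃ c, T (φ c) ∧ Relation.ReflTransGen (fun c c' => c' = st' c) c₀ c := by
  constructor
  · rintro ⟨c, hT, h⟩
    have key : ∃ c', Inv c' ∧ φ c' = c ∧ Relation.ReflTransGen (fun c c' => c' = st' c) c₀ c' := by
      clear hT
      induction h with
      | refl => exact ⟨c₀, h0, rfl, Relation.ReflTransGen.refl⟩
      | tail _ h2 ih =>
        obtain ⟨c', h3, h4, h5⟩ := ih
        refine ⟨st' c', (hs c' h3).1, ?_, h5.tail rfl⟩
        rw [(hs c' h3).2, h4, h2]
    obtain ⟨c', _, h4, h5⟩ := key
    exact ⟨c', by rw [h4]; exact hT, h5⟩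
  · rintro ⟨c, hT, h⟩
    refine ⟨φ c, hT, ?_⟩
    have key : Inv c ∧ Relation.ReflTransGen (fun c c' => c' = st c) (φ c₀) (φ c) := by
      clear hT
      induction h with
      | refl => exact ⟨h0, Relation.ReflTransGen.refl⟩
      | tail _ h2 ih =>
        subst h2
        refine ⟨(hs _ ih.1).1, ih.2.tail ?_⟩
        exact (hs _ ih.1).2
    exact key.2

/-- The languages of deterministic two-way multi-head automata are closed under the inverse images
of the maps `w ↦ x h(w) y`, `x`, `y` and all the words `h(a)` nonempty. -/
theorem multiHead_inv {A B : Type} [Finite A] (h : A → List B) (x y : List B)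
    (hx : x ≠ []) (hh : ∀ a, h a ≠ []) {L : Language B} (hL : MultiHead L) :
    MultiHead ({w : List A | x ++ w.flatMap h ++ y ∈ L} : Language A) := by
  classical
  obtain ⟨Q, _, k, δ, q₀, acc, hacc⟩ := hL
  obtain ⟨N, hN⟩ : ∃ N, ∀ s, ln x y h s ≤ N := by
    obtain ⟨N, hN⟩ := (Set.finite_range (ln x y h)).bddAbove
    exact ⟨N, fun s => hN ⟨s, rfl⟩⟩
  have hpos : ∀ s, 0 < ln x y h s := by
    rintro ⟨_ | _, _ | a⟩
    · simp [ln]
    · simp only [ln]; exact List.length_pos_iff.2 (hh a)
    · simp [ln]
    · simp [ln]
  let rdf : (Fin k → Option (Fin (N + 1))) → (Fin k → Bool × Option A) → Fin k → Bool × Option B :=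
    fun o s j => rd x y h (s j) (rs (ln x y h (s j)) (o j))
  let δ' : Q × (Fin k → Option (Fin (N + 1))) → (Fin k → Bool × Option A) →
      (Q × (Fin k → Option (Fin (N + 1)))) × (Fin k → Fin 3) := fun q s =>
    (((δ q.1 (rdf q.2 s)).1,
      fun j => (mv x y h N (s j) (rs (ln x y h (s j)) (q.2 j)) ((δ q.1 (rdf q.2 s)).2 j)).2),
      fun j => (mv x y h N (s j) (rs (ln x y h (s j)) (q.2 j)) ((δ q.1 (rdf q.2 s)).2 j)).1)
  refine ⟨Q × (Fin k → Option (Fin (N + 1))), inferInstance, k, δ', (q₀, fun _ => some (mkf N 0)),
    {q | q.1 ∈ acc}, fun w => ?_⟩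
  have h1 : w ∈ ({w : List A | x ++ w.flatMap h ++ y ∈ L} : Language A) ↔
    x ++ w.flatMap h ++ y ∈ L := Iff.rfl
  refine h1.trans ((hacc _).trans ?_)
  let v := x ++ w.flatMap h ++ y
  let st : Q × (Fin k → ℕ) → Q × (Fin k → ℕ) := fun c =>
    ((δ c.1 (fun j => sym v (c.2 j))).1,
      fun i => apm v.length ((δ c.1 (fun j => sym v (c.2 j))).2 i) (c.2 i))
  let st' : (Q × (Fin k → Option (Fin (N + 1)))) × (Fin k → ℕ) →
      (Q × (Fin k → Option (Fin (N + 1)))) × (Fin k → ℕ) := fun c =>
    ((δ' c.1 (fun j => sym w (c.2 j))).1,
      fun i => apm w.length ((δ' c.1 (fun j => sym w (c.2 j))).2 i) (c.2 i))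
  let φ : (Q × (Fin k → Option (Fin (N + 1)))) × (Fin k → ℕ) → Q × (Fin k → ℕ) := fun c =>
    (c.1.1, fun j => pos x y h w (c.2 j) (c.1.2 j))
  have hsim := simulate st st' φ (fun c => ∀ j, Ok x y h w (c.2 j) (c.1.2 j)) ?_
    ((q₀, fun _ => some (mkf N 0)), fun _ => 0) ?_ (fun c => c.1 ∈ acc)
  · have hφ0 : φ ((q₀, fun _ => some (mkf N 0)), fun _ => 0) = (q₀, fun _ => 0) := by
      simp [φ, pos, str_zero, rs, mkf]
    rw [hφ0] at hsim
    constructor
    · rintro ⟨q, p, hq, hr⟩
      obtain ⟨⟨q', p'⟩, h2, h3⟩ := hsim.1 ⟨(q, p), hq, hr⟩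
      exact ⟨q', p', h2, h3⟩
    · rintro ⟨q', p', hq, hr⟩
      obtain ⟨⟨q, p⟩, h2, h3⟩ := hsim.2 ⟨(q', p'), hq, hr⟩
      exact ⟨q, p, h2, h3⟩
  · rintro ⟨⟨q, o⟩, p⟩ hinv
    have hrd : (fun j => sym v (pos x y h w (p j) (o j))) = rdf o (fun j => sym w (p j)) := by
      funext j
      exact read_eq x y h hx w (p j) _ (hinv j).1 (hinv j).2
    have hmv := fun j => move_eq x y h hN hpos w (p j) (o j) (hinv j)
      ((δ q (rdf o (fun j => sym w (p j)))).2 j)
    constructor
    · intro j
      exact (hmv j).1
    · simp only [st, st', φ, δ']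
      rw [hrd]
      refine Prod.ext rfl ?_
      funext j
      exact (hmv j).2
  · intro j
    refine ⟨Nat.zero_le _, ?_⟩
    simp only [rs, mkf, Nat.zero_min]
    exact hpos _

end Pool.Agent.Helper925.SW
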