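import Pool.Agent.Helper925.SW.Bin
import Pool.Agent.Helper925.SW.Heads

/-!
# Every context-free language is an inverse image of the word problem, with a nonerasing map
-/

set_option autoImplicit false

namespace Pool.Agent.Helper925.SW

open Pool.Agent.Helper336.CF Pool.Agent.Helper79.Trans Pool.Agent.W399.WP

open Classical in
/-- Greibach's theorem for `L0`, with nonempty words. -/
theorem hardest_ne {T : Type} {L : Set (List T)} (hL : IsCF L) :
    ∃ (x : List G7) (h : T → List G7), x ≠ [] ∧ (∀ a, h a ≠ []) ∧
      ∀ w, w ∈ L ↔ x ++ w.flatMap h ∈ L0 := by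
  obtain ⟨g, hg⟩ := hL
  have hg' : ∀ w, w ∈ L ↔ w ∈ g.language := by
    intro w
    have : (g.language : Set (List T)) = L := hg
    rw [← this]; exact Iff.rfl
  let st : List (List Br) := ((enc [ini g]).reverse.map Br.op) :: (if [] ∈ L then [[]] else [])
  refine ⟨block st, fun a => block (alts g a), by simp [block], fun a => by simp [block],
    fun w => ?_⟩
  rw [mem_L0]
  constructor
  · intro hw
    by_cases h0 : w = []
    · subst h0
      refine ⟨[] ++ [], rfl, sel_block ?_ Sel.nil⟩
      simp [st, hw]
    · have h1 : Acc [ini g] w := (acc_iff w h0).2 ((mem_language w).1 ((hg' w).1 hw))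
      obtain ⟨v, h2, h3⟩ := sel_of_acc h1
      refine ⟨(enc [ini g]).reverse.map Br.op ++ v, ?_, sel_block (by simp [st]) h2⟩
      rw [run_append, run_push, Option.bind_some, List.append_nil, h3]
  · rintro ⟨v, h1, h2⟩
    obtain ⟨α, hα, v', rfl, h3⟩ := block_inv _ h2
    rcases List.mem_cons.1 hα with rfl | hα
    · rw [run_append, run_push, Option.bind_some, List.append_nil] at h1
      have h4 : Acc [ini g] w := acc_of_sel h3 h1
      have h0 : w ≠ [] := by
        rintro rfl
        cases h4
      exact (hg' w).2 ((mem_language w).2 ((acc_iff w h0).1 h4))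
    · by_cases he : [] ∈ L
      · rw [if_pos he, List.mem_singleton] at hα
        subst hα
        have h4 : Acc ([] : List (Gm g)) w := acc_of_sel h3 h1
        cases h4
        exact he
      · rw [if_neg he] at hα
        simp at hα

/-- Every context-free language is an inverse image of the word problem under a map `w ↦ x h(w) y`
with nonempty words `x`, `y` and `h(a)`. -/
theorem universal_ne {T : Type} {L : Language T} (hL : L.IsContextFree) :
    ∃ (x y : List (Option Bool)) (h : T → List (Option Bool)), x ≠ [] ∧ y ≠ [] ∧ (∀ a, h a ≠ []) ∧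
      ∀ w : List T, w ∈ L ↔ x ++ w.flatMap h ++ y ∈ WordProblem phi0 := by
  obtain ⟨x, h, _, hne, hx⟩ := hardest_ne (L := (L : Set (List T))) hL
  refine ⟨([true, true] ++ x.flatMap cd).map some,
    [some true] ++ none :: ((K []).reverse).map some, fun a => ((h a).flatMap cd).map some,
    by simp, by simp, fun a => ?_, ?_⟩
  · obtain ⟨b, l, hb⟩ := List.exists_cons_of_ne_nil (hne a)
    simp [hb, cd]
  · intro w
    have h1 : w ∈ L ↔ x ++ w.flatMap h ∈ L0 := hx w
    rw [h1, ← mem_wp0]
    have h2 : (K (x ++ w.flatMap h)).map some =
        ([true, true] ++ x.flatMap cd).map some ++ w.flatMap (fun a => ((h a).flatMap cd).map some) ++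
          [some true] := by
      have h3 : (w.flatMap h).flatMap cd = w.flatMap (fun a => (h a).flatMap cd) := by
        rw [List.flatMap_assoc]
      have h4 : (w.flatMap (fun a => (h a).flatMap cd)).map some =
          w.flatMap (fun a => ((h a).flatMap cd).map some) := by
        rw [List.map_flatMap]
      simp only [K, List.flatMap_append, List.map_append, h3, h4, List.append_assoc]
      rfl
    rw [h2]
    simp only [List.append_assoc, List.cons_append, List.nil_append]

end Pool.Agent.Helper925.SW
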