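import Pool.Agent.Helper925.SW.Hard

/-!
# Every context-free language is the inverse image of the hardest language
-/

set_option autoImplicit false

namespace Pool.Agent.Helper925.SW

open Pool.Agent.Helper336.CF Pool.Agent.Helper79.Trans

theorem run_map_op (m : List Bool) (s : List Bool) : run (m.map Br.op) s = some (m.reverse ++ s) := by
  induction m generalizing s with
  | nil => rfl
  | cons b m ih => simp [run, ih]

theorem run_push (l s : List Bool) : run (l.reverse.map Br.op) s = some (l ++ s) := by
  rw [run_map_op, List.reverse_reverse]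

theorem run_pop (l s t : List Bool) : run (l.map Br.cl) s = some t ↔ s = l ++ t := by
  induction l generalizing s with
  | nil => simp [run]
  | cons b l ih =>
    cases s with
    | nil => simp [run]
    | cons c s =>
      simp only [List.map_cons, run, List.cons_append, List.cons.injEq]
      split_ifs with h
      · subst h
        rw [ih]; simp
      · constructor
        · intro h'; simp at h'
        · rintro ⟨rfl, _⟩; exact absurd rfl h

/-- The code of a number. -/
def code (n : ℕ) : List Bool := true :: List.replicate n false ++ [true]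

theorem code_inj {i j : ℕ} {s t : List Bool} (h : code i ++ s = code j ++ t) : i = j ∧ s = t := by
  simp only [code, List.cons_append, List.append_assoc, List.nil_append, List.cons.injEq,
    true_and] at h
  induction i generalizing j with
  | zero =>
    cases j with
    | zero => simpa using h
    | succ j => simp [List.replicate_succ] at h
  | succ i ih =>
    cases j with
    | zero => simp [List.replicate_succ] at h
    | succ j =>
      simp only [List.replicate_succ, List.cons_append, List.cons.injEq, true_and] at h
      obtain ⟨h1, h2⟩ := ih h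
      exact ⟨by rw [h1], h2⟩

section

variable {T : Type} {g : ContextFreeGrammar T}

/-- A number for each stack symbol. -/
noncomputable def idx (γ : Gm g) : ℕ := (Finite.equivFin (Gm g) γ : Fin _)

theorem idx_inj {γ δ : Gm g} (h : idx γ = idx δ) : γ = δ :=
  (Finite.equivFin (Gm g)).injective (Fin.ext h)

/-- The code of a stack. -/
noncomputable def enc (σ : List (Gm g)) : List Bool := σ.flatMap fun γ => code (idx γ)

theorem enc_append (σ τ : List (Gm g)) : enc (σ ++ τ) = enc σ ++ enc τ := by
  simp [enc]

theorem enc_cons (γ : Gm g) (σ : List (Gm g)) : enc (γ :: σ) = code (idx γ) ++ enc σ := by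
  simp [enc]

/-- The brackets for the move which replaces `γ` by `β`. -/
noncomputable def mvW (γ : Gm g) (β : List (Gm g)) : List Br :=
  (code (idx γ)).map Br.cl ++ (enc β).reverse.map Br.op

theorem run_mvW (γ : Gm g) (β σ : List (Gm g)) :
    run (mvW γ β) (enc (γ :: σ)) = some (enc (β ++ σ)) := by
  rw [mvW, run_append, (run_pop _ _ _).2 (enc_cons γ σ), Option.bind_some, run_push, enc_append]

theorem run_mvW_inv (γ : Gm g) (β σ : List (Gm g)) (t : List Bool)
    (h : run (mvW γ β) (enc σ) = some t) : ∃ σ', σ = γ :: σ' ∧ t = enc (β ++ σ') := by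
  rw [mvW, run_append] at h
  cases h1 : run ((code (idx γ)).map Br.cl) (enc σ) with
  | none => rw [h1] at h; simp at h
  | some s =>
    rw [h1, Option.bind_some, run_push, Option.some.injEq] at h
    rw [run_pop] at h1
    cases σ with
    | nil => simp [enc, code] at h1
    | cons δ σ =>
      rw [enc_cons] at h1
      obtain ⟨h2, h3⟩ := code_inj h1
      refine ⟨σ, by rw [idx_inj h2], ?_⟩
      rw [← h, enc_append, h3]

theorem mv_finite (a : T) : {p : Gm g × List (Gm g) | Mv p.1 a p.2}.Finite := by
  refine ((Set.finite_univ (α := Gm g)).prod (List.finite_length_le (Gm g) 3)).subset ?_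
  rintro ⟨γ, β⟩ h
  exact ⟨trivial, h.1⟩

/-- The alternatives for a letter. -/
noncomputable def alts (g : ContextFreeGrammar T) (a : T) : List (List Br) :=
  (mv_finite (g := g) a).toFinset.toList.map fun p => mvW p.1 p.2

theorem mem_alts (a : T) (α : List Br) : α ∈ alts g a ↔ ∃ γ β, Mv (g := g) γ a β ∧ α = mvW γ β := by
  simp only [alts, List.mem_map, Finset.mem_toList, Set.Finite.mem_toFinset, Set.mem_ofPred_eq,
    Prod.exists]
  constructor
  · rintro ⟨γ, β, h, rfl⟩; exact ⟨γ, β, h, rfl⟩
  · rintro ⟨γ, β, h, rfl⟩; exact ⟨γ, β, h, rfl⟩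

theorem sel_of_acc {σ : List (Gm g)} {w : List T} (h : Acc σ w) :
    ∃ v, Sel Md.out v (w.flatMap fun a => block (alts g a)) ∧ run v (enc σ) = some [] := by
  induction h with
  | nil => exact ⟨[], Sel.nil, rfl⟩
  | step γ σ β a w hm _ ih =>
    obtain ⟨v, h1, h2⟩ := ih
    refine ⟨mvW γ β ++ v, ?_, ?_⟩
    · rw [List.flatMap_cons]
      exact sel_block ((mem_alts a _).2 ⟨γ, β, hm, rfl⟩) h1
    · rw [run_append, run_mvW, Option.bind_some, h2]

theorem acc_of_sel {w : List T} : ∀ {σ : List (Gm g)} {v : List Br},
    Sel Md.out v (w.flatMap fun a => block (alts g a)) → run v (enc σ) = some [] → Acc σ w := by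
  induction w with
  | nil =>
    intro σ v h1 h2
    have hv := nil_inv h1
    subst hv
    cases σ with
    | nil => exact Acc.nil
    | cons γ σ =>
      exfalso
      rw [enc_cons] at h2
      simp [run, code] at h2
  | cons a w ih =>
    intro σ v h1 h2
    rw [List.flatMap_cons] at h1
    obtain ⟨α, hα, v', rfl, h3⟩ := block_inv _ h1
    obtain ⟨γ, β, hm, rfl⟩ := (mem_alts a α).1 hα
    rw [run_append] at h2
    cases h4 : run (mvW γ β) (enc σ) with
    | none => rw [h4] at h2; simp at h2
    | some t =>
      obtain ⟨σ', rfl, rfl⟩ := run_mvW_inv γ β σ t h4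
      rw [h4, Option.bind_some] at h2
      exact Acc.step γ σ' β a w hm (ih h3 h2)

end

open Classical in
/-- Greibach's theorem for `L0`. -/
theorem hardest {T : Type} {L : Set (List T)} (hL : IsCF L) :
    ∃ (x : List G7) (h : T → List G7), ∀ w, w ∈ L ↔ x ++ w.flatMap h ∈ L0 := by
  obtain ⟨g, hg⟩ := hL
  have hg' : ∀ w, w ∈ L ↔ w ∈ g.language := by
    intro w
    have : (g.language : Set (List T)) = L := hg
    rw [← this]; exact Iff.rfl
  let st : List (List Br) := ((enc [ini g]).reverse.map Br.op) :: (if [] ∈ L then [[]] else [])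
  refine ⟨block st, fun a => block (alts g a), fun w => ?_⟩
  rw [mem_L0]
  constructor
  · intro hw
    by_cases h0 : w = []
    · subst h0
      refine ⟨[] ++ [], rfl, sel_block ?_ Sel.nil⟩
      simp [st, hw]
    · have h1 : Acc [ini g] w := (acc_iff w h0).2 ((mem_language w).1 ((hg' w).1 hw))
      obtain ⟨v, h2, h3⟩ := sel_of_acc h1
      refine ⟨(enc [ini g]).reverse.map Br.op ++ v, ?_, sel_block (by simp [st]) h2⟩
      rw [run_append, run_push, Option.bind_some, List.append_nil, h3]
  · rintro ⟨v, h1, h2⟩
    obtain ⟨α, hα, v', rfl, h3⟩ := block_inv _ h2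
    rcases List.mem_cons.1 hα with rfl | hα
    · rw [run_append, run_push, Option.bind_some, List.append_nil] at h1
      have h4 : Acc [ini g] w := acc_of_sel h3 h1
      have h0 : w ≠ [] := by
        rintro rfl
        cases h4
      exact (hg' w).2 ((mem_language w).2 ((acc_iff w h0).1 h4))
    · by_cases he : [] ∈ L
      · rw [if_pos he, List.mem_singleton] at hα
        subst hα
        have h4 : Acc ([] : List (Gm g)) w := acc_of_sel h3 h1
        cases h4
        exact he
      · rw [if_neg he] at hα
        simp at hα

end Pool.Agent.Helper925.SW
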