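import Pool.Agent.Helper925.SW.Gram

/-!
# A real-time stack form of context-free grammars (a semantic Greibach normal form)
-/

set_option autoImplicit false

namespace Pool.Agent.Helper925.SW

open Pool.Agent.Helper79.Trans

section

variable {T : Type} (g : ContextFreeGrammar T)

/-- `Cc g s A v`: when the first nonempty part of `s` starts with a completed `A`, then `v` is a
possible rest of `s`. -/
inductive Cc (s : List (Symbol T g.NT)) : g.NT → List T → Prop
  | base (p s' : List (Symbol T g.NT)) (A : g.NT) (v : List T) :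
      s = p ++ Symbol.nonterminal A :: s' → Yld g p [] → Yld g s' v → Cc s A v
  | step (r : ContextFreeRule T g.NT) (p t' : List (Symbol T g.NT)) (A : g.NT) (v₁ v₂ : List T) :
      r ∈ g.rules → r.output = p ++ Symbol.nonterminal A :: t' → Yld g p [] → Yld g t' v₁ →
      Cc s r.input v₂ → Cc s A (v₁ ++ v₂)

variable {g}

theorem Yld.single {r : ContextFreeRule T g.NT} {w : List T} (hr : r ∈ g.rules)
    (h : Yld g r.output w) : Yld g [Symbol.nonterminal r.input] w := by
  have := Yld.node r [] w [] hr h Yld.nil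
  simpa using this

theorem Cc.sound {s : List (Symbol T g.NT)} {A : g.NT} {v : List T} (h : Cc g s A v) :
    ∀ u : List T, Yld g [Symbol.nonterminal A] u → Yld g s (u ++ v) := by
  induction h with
  | base p s' A v hs hp hs' =>
    intro u hu
    subst hs
    have h1 := Yld.append hu hs'
    have h2 := Yld.append hp h1
    simpa using h2
  | step r p t' A v₁ v₂ hr ho hp ht _ ih =>
    intro u hu
    have h1 := Yld.append hu ht
    have h2 := Yld.append hp h1
    have h3 : Yld g r.output (u ++ v₁) := by
      rw [ho]; simpa using h2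
    have h4 := ih _ (Yld.single hr h3)
    simpa using h4

theorem Cc.cons {s : List (Symbol T g.NT)} {A : g.NT} {v : List T} (h : Cc g s A v)
    (X : Symbol T g.NT) (hX : Yld g [X] []) : Cc g (X :: s) A v := by
  induction h with
  | base p s' A v hs hp hs' =>
    subst hs
    exact Cc.base (X :: p) s' A v rfl (by simpa using Yld.append hX hp) hs'
  | step r p t' A v₁ v₂ hr ho hp ht _ ih => exact Cc.step r p t' A v₁ v₂ hr ho hp ht ih

theorem Cc.trans {s : List (Symbol T g.NT)} {r : ContextFreeRule T g.NT} (hr : r ∈ g.rules)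
    {B : g.NT} {v w : List T} (h : Cc g r.output B v) (h' : Cc g s r.input w) :
    Cc g s B (v ++ w) := by
  induction h with
  | base p s' A v hs hp hs' => exact Cc.step r p s' A v w hr hs hp hs' h'
  | step r' p t' A v₁ v₂ hr' ho hp ht _ ih =>
    rw [List.append_assoc]
    exact Cc.step r' p t' A v₁ (v₂ ++ w) hr' ho hp ht ih

theorem yld_cons {s : List (Symbol T g.NT)} {w : List T} (h : Yld g s w) :
    ∀ (a : T) (v : List T), w = a :: v →
      (∃ p s', s = p ++ Symbol.terminal a :: s' ∧ Yld g p [] ∧ Yld g s' v) ∨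
      (∃ r ∈ g.rules, ∃ p t' v₁ v₂, r.output = p ++ Symbol.terminal a :: t' ∧ Yld g p [] ∧
        v = v₁ ++ v₂ ∧ Yld g t' v₁ ∧ Cc g s r.input v₂) := by
  induction h with
  | nil => intro a v h; simp at h
  | term t α w h _ =>
    intro a v h'
    injection h' with h1 h2
    subst h1; subst h2
    exact Or.inl ⟨[], α, rfl, Yld.nil, h⟩
  | node r α w₁ w₂ hr h1 h2 ih1 ih2 =>
    intro a v h'
    cases w₁ with
    | nil =>
      have hX : Yld g [Symbol.nonterminal r.input] [] := Yld.single hr h1
      rcases ih2 a v (by simpa using h') with ⟨p, s', rfl, hp, hs⟩ | ⟨r', hr', p, t', v₁, v₂, h3, h4, h5, h6, h7⟩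
      · exact Or.inl ⟨_ :: p, s', rfl, by simpa using Yld.append hX hp, hs⟩
      · exact Or.inr ⟨r', hr', p, t', v₁, v₂, h3, h4, h5, h6, h7.cons _ hX⟩
    | cons c w₁ =>
      simp only [List.cons_append, List.cons.injEq] at h'
      obtain ⟨rfl, rfl⟩ := h'
      rcases ih1 c w₁ rfl with ⟨p, s', h3, hp, hs⟩ | ⟨r', hr', p, t', v₁, v₂, h3, h4, h5, h6, h7⟩
      · exact Or.inr ⟨r, hr, p, s', w₁, w₂, h3, hp, rfl, hs,
          Cc.base [] α r.input w₂ rfl Yld.nil h2⟩
      · refine Or.inr ⟨r', hr', p, t', v₁, v₂ ++ w₂, h3, h4, ?_, h6, ?_⟩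
        · rw [h5]; simp
        · exact Cc.trans hr h7 (Cc.base [] α r.input w₂ rfl Yld.nil h2)

variable (g)

/-- Stack symbols: items and pairs of an item and a rule. -/
def Gm : Type := {s : List (Symbol T g.NT) // s ∈ Suf g} ⊕
  ({s : List (Symbol T g.NT) // s ∈ Suf g} × {r : ContextFreeRule T g.NT // r ∈ g.rules})

instance : Finite (Gm g) := by
  unfold Gm
  infer_instance

variable {g}

/-- The language of a stack symbol. -/
def lang : Gm g → List T → Prop
  | Sum.inl s, v => Yld g s.1 v
  | Sum.inr (s, r), v => Cc g s.1 r.1.input v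

/-- The language of a stack. -/
inductive Cl : List (Gm g) → List T → Prop
  | nil : Cl [] []
  | cons (γ : Gm g) (β : List (Gm g)) (u v : List T) : lang γ u → Cl β v → Cl (γ :: β) (u ++ v)

/-- The same with nonempty parts. -/
inductive Clp : List (Gm g) → List T → Prop
  | nil : Clp [] []
  | cons (γ : Gm g) (β : List (Gm g)) (a : T) (u v : List T) : lang γ (a :: u) → Clp β v →
      Clp (γ :: β) (a :: u ++ v)

/-- Moves of the stack machine. -/
def Mv (γ : Gm g) (a : T) (β : List (Gm g)) : Prop :=
  β.length ≤ 3 ∧ ∀ v, Cl β v → lang γ (a :: v)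

theorem Cl.append {σ τ : List (Gm g)} {u v : List T} (h : Cl σ u) (h' : Cl τ v) :
    Cl (σ ++ τ) (u ++ v) := by
  induction h with
  | nil => exact h'
  | cons γ β u v h1 _ ih => rw [List.append_assoc]; exact Cl.cons γ _ u _ h1 ih

theorem Cl.split {σ τ : List (Gm g)} {w : List T} (h : Cl (σ ++ τ) w) :
    ∃ u v, w = u ++ v ∧ Cl σ u ∧ Cl τ v := by
  induction σ generalizing w with
  | nil => exact ⟨[], w, rfl, Cl.nil, h⟩
  | cons γ σ ih =>
    cases h with
    | cons _ _ u v h1 h2 =>
      obtain ⟨u', v', rfl, h3, h4⟩ := ih h2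
      exact ⟨u ++ u', v', by simp, Cl.cons γ σ u u' h1 h3, h4⟩

theorem Clp.append {σ τ : List (Gm g)} {u v : List T} (h : Clp σ u) (h' : Clp τ v) :
    Clp (σ ++ τ) (u ++ v) := by
  induction h with
  | nil => exact h'
  | cons γ β a u v h1 _ ih => rw [List.append_assoc]; exact Clp.cons γ _ a u _ h1 ih

/-- Dropping empty parts. -/
theorem Cl.drop {σ : List (Gm g)} {w : List T} (h : Cl σ w) :
    ∃ τ : List (Gm g), τ.length ≤ σ.length ∧ Clp τ w ∧ ∀ v, Cl τ v → Cl σ v := by
  induction h with
  | nil => exact ⟨[], le_rfl, Clp.nil, fun v h => h⟩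
  | cons γ β u v h1 _ ih =>
    obtain ⟨τ, h3, h4, h5⟩ := ih
    cases u with
    | nil =>
      refine ⟨τ, by simp; omega, by simpa using h4, ?_⟩
      intro v' h6
      have := Cl.cons γ β [] v' h1 (h5 v' h6)
      simpa using this
    | cons a u =>
      refine ⟨γ :: τ, by simp; omega, Clp.cons γ τ a u v h1 h4, ?_⟩
      intro v' h6
      cases h6 with
      | cons _ _ u' v'' h7 h8 => exact Cl.cons γ β u' v'' h7 (h5 _ h8)

/-- The first letter of a word of an item. -/
theorem item_step {s : List (Symbol T g.NT)} (hs : s ∈ Suf g) {a : T} {v : List T}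
    (h : Yld g s (a :: v)) : ∃ β : List (Gm g), β.length ≤ 2 ∧ Cl β v ∧
      ∀ v', Cl β v' → Yld g s (a :: v') := by
  rcases yld_cons h a v rfl with ⟨p, s', rfl, hp, hs'⟩ | ⟨r, hr, p, t', v₁, v₂, h3, h4, rfl, h6, h7⟩
  · have hs2 : s' ∈ Suf g := by
      clear h hp
      induction p with
      | nil => exact Suf_tail hs
      | cons x p ih => exact ih (Suf_tail hs)
    refine ⟨[Sum.inl ⟨s', hs2⟩], by simp, ?_, ?_⟩
    · have := Cl.cons (Sum.inl ⟨s', hs2⟩ : Gm g) [] v [] hs' Cl.nil
      simpa using this
    · intro v' hv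
      cases hv with
      | cons _ _ u w h1 h2 =>
        cases h2 with
        | nil =>
          have h1' : Yld g s' u := h1
          have := Yld.append hp (Yld.term a s' u h1')
          simpa using this
  · have hs2 : t' ∈ Suf g := by
      have h8 : p ++ Symbol.terminal a :: t' ∈ Suf g := by rw [← h3]; exact Suf_out hr
      clear h h3 h4
      induction p with
      | nil => exact Suf_tail h8
      | cons x p ih => exact ih (Suf_tail h8)
    refine ⟨[Sum.inl ⟨t', hs2⟩, Sum.inr (⟨s, hs⟩, ⟨r, hr⟩)], by simp, ?_, ?_⟩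
    · have := Cl.cons (Sum.inl ⟨t', hs2⟩ : Gm g) [Sum.inr (⟨s, hs⟩, ⟨r, hr⟩)] v₁ v₂ h6
        (by simpa using Cl.cons (Sum.inr (⟨s, hs⟩, ⟨r, hr⟩) : Gm g) [] v₂ [] h7 Cl.nil)
      exact this
    · intro v' hv
      cases hv with
      | cons _ _ u w h1 h2 =>
        cases h2 with
        | cons _ _ u' w' h8 h9 =>
          cases h9 with
          | nil =>
            have h1' : Yld g t' u := h1
            have h8' : Cc g s r.input u' := h8
            have h10 : Yld g r.output (a :: u) := by
              rw [h3]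
              have := Yld.append h4 (Yld.term a t' u h1')
              simpa using this
            have := h8'.sound _ (Yld.single hr h10)
            simpa using this

/-- The first letter of a word of a pair. -/
theorem pair_step {s : List (Symbol T g.NT)} (hs : s ∈ Suf g) {A : g.NT} {w : List T}
    (h : Cc g s A w) : ∀ (a : T) (v : List T), w = a :: v →
      ∃ β : List (Gm g), β.length ≤ 3 ∧ Cl β v ∧ ∀ v', Cl β v' → Cc g s A (a :: v') := by
  induction h with
  | base p s' A w hs' hp hY =>
    intro a v hw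
    subst hw
    have hs2 : s' ∈ Suf g := by
      have h8 : p ++ Symbol.nonterminal A :: s' ∈ Suf g := by rw [← hs']; exact hs
      clear hs' hp
      induction p with
      | nil => exact Suf_tail h8
      | cons x p ih => exact ih (Suf_tail h8)
    obtain ⟨β, h1, h2, h3⟩ := item_step hs2 hY
    exact ⟨β, by omega, h2, fun v' hv => Cc.base p s' A _ hs' hp (h3 v' hv)⟩
  | step r p t' A v₁ v₂ hr ho hp ht hC ih =>
    intro a v hw
    cases v₁ with
    | nil =>
      obtain ⟨β, h1, h2, h3⟩ := ih a v (by simpa using hw)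
      refine ⟨β, h1, h2, fun v' hv => ?_⟩
      have := Cc.step r p t' A [] (a :: v') hr ho hp ht (h3 v' hv)
      simpa using this
    | cons c v₁ =>
      simp only [List.cons_append, List.cons.injEq] at hw
      obtain ⟨rfl, rfl⟩ := hw
      have hs2 : t' ∈ Suf g := by
        have h8 : p ++ Symbol.nonterminal A :: t' ∈ Suf g := by rw [← ho]; exact Suf_out hr
        clear ho hp
        induction p with
        | nil => exact Suf_tail h8
        | cons x p ih => exact ih (Suf_tail h8)
      obtain ⟨β, h1, h2, h3⟩ := item_step hs2 ht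
      let γ' : Gm g := Sum.inr (⟨s, hs⟩, ⟨r, hr⟩)
      refine ⟨β ++ [γ'], by simp; omega, ?_, ?_⟩
      · refine Cl.append h2 ?_
        have := Cl.cons γ' [] v₂ [] hC Cl.nil
        simpa using this
      · intro v' hv
        obtain ⟨u, w, rfl, h4, h5⟩ := hv.split
        cases h5 with
        | cons _ _ u' w' h8 h9 =>
          cases h9 with
          | nil =>
            have h8' : Cc g s r.input u' := h8
            have := Cc.step r p t' A (c :: u) u' hr ho hp (h3 u h4) h8'
            simpa using this

theorem exists_mv {γ : Gm g} {a : T} {v : List T} (h : lang γ (a :: v)) :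
    ∃ β, Mv γ a β ∧ Clp β v := by
  have h1 : ∃ β : List (Gm g), β.length ≤ 3 ∧ Cl β v ∧ ∀ v', Cl β v' → lang γ (a :: v') := by
    rcases γ with s | ⟨s, r⟩
    · obtain ⟨β, h1, h2, h3⟩ := item_step s.2 h
      exact ⟨β, by omega, h2, h3⟩
    · exact pair_step s.2 h a v rfl
  obtain ⟨β, h1, h2, h3⟩ := h1
  obtain ⟨τ, h4, h5, h6⟩ := h2.drop
  exact ⟨τ, ⟨by omega, fun v' hv => h3 v' (h6 v' hv)⟩, h5⟩

/-- Acceptance by empty stack. -/
inductive Acc : List (Gm g) → List T → Prop
  | nil : Acc [] []
  | step (γ : Gm g) (σ β : List (Gm g)) (a : T) (w : List T) : Mv γ a β → Acc (β ++ σ) w →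
      Acc (γ :: σ) (a :: w)

theorem Acc.sound {σ : List (Gm g)} {w : List T} (h : Acc σ w) : Cl σ w := by
  induction h with
  | nil => exact Cl.nil
  | step γ σ β a w hm _ ih =>
    obtain ⟨u, v, rfl, h1, h2⟩ := ih.split
    exact Cl.cons γ σ (a :: u) v (hm.2 u h1) h2

theorem Acc.complete : ∀ (n : ℕ) (σ : List (Gm g)) (w : List T), w.length ≤ n → Clp σ w → Acc σ w := by
  intro n
  induction n with
  | zero =>
    intro σ w hw h
    cases h with
    | nil => exact Acc.nil
    | cons => simp at hw
  | succ n ih =>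
    intro σ w hw h
    cases h with
    | nil => exact Acc.nil
    | cons γ β a u v h1 h2 =>
      obtain ⟨τ, h3, h4⟩ := exists_mv h1
      refine Acc.step γ β τ a (u ++ v) h3 (ih _ _ ?_ (Clp.append h4 h2))
      simp only [List.length_append, List.length_cons] at hw ⊢
      omega

theorem derives_of_yld' {α : List (Symbol T g.NT)} {w : List T} (h : Yld g α w) :
    g.Derives α (w.map Symbol.terminal) := by
  induction h with
  | nil => exact Relation.ReflTransGen.refl
  | term t α w _ ih => simpa using ih.append_left [Symbol.terminal t]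
  | node r α w₁ w₂ hr _ _ ih1 ih2 =>
    have h2 : g.Produces (Symbol.nonterminal r.input :: α) (r.output ++ α) := by
      have : g.Produces [Symbol.nonterminal r.input] r.output :=
        ⟨r, hr, ContextFreeRule.Rewrites.input_output⟩
      simpa using this.append_right α
    have h3 : g.Derives (r.output ++ α) (w₁.map Symbol.terminal ++ α) := ih1.append_right α
    have h4 : g.Derives (w₁.map Symbol.terminal ++ α)
        (w₁.map Symbol.terminal ++ w₂.map Symbol.terminal) := ih2.append_left _
    rw [List.map_append]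
    exact h2.trans_derives (h3.trans h4)

theorem mem_language (w : List T) : w ∈ g.language ↔ Yld g [Symbol.nonterminal g.initial] w :=
  ⟨fun h => yld_of_derives h, fun h => derives_of_yld' h⟩

/-- The initial stack symbol. -/
def ini (g : ContextFreeGrammar T) : Gm g := Sum.inl ⟨[Symbol.nonterminal g.initial], Suf_init g⟩

theorem acc_iff (w : List T) (hw : w ≠ []) :
    Acc [ini g] w ↔ Yld g [Symbol.nonterminal g.initial] w := by
  constructor
  · intro h
    have h1 := h.sound
    cases h1 with
    | cons _ _ u v h2 h3 =>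
      cases h3 with
      | nil =>
        have h4 : Yld g [Symbol.nonterminal g.initial] u := h2
        simpa using h4
  · intro h
    obtain ⟨a, w, rfl⟩ := List.exists_cons_of_ne_nil hw
    apply Acc.complete _ _ _ le_rfl
    have := Clp.cons (ini g) [] a w [] h Clp.nil
    simpa using this

end

end Pool.Agent.Helper925.SW
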