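import Pool.Agent.Helper336.CF
import Pool.Agent.Helper79.Comap

/-!
# Closure properties of context-free languages used for word problems
-/

set_option autoImplicit false

namespace Pool.Agent.Helper925.SW

open Pool.Agent.Helper336.CF

variable {T : Type}

/-- Words `l₁ m l₂ʳ` where `m ∈ L` and `(l₁, l₂)` is read off a list of pairs from `P`. -/
def wrapP (P : Finset (T × T)) (L : Set (List T)) : Set (List T) :=
  {w | ∃ l : List (T × T), (∀ x ∈ l, x ∈ P) ∧ ∃ m ∈ L,
    w = l.map Prod.fst ++ m ++ (l.map Prod.snd).reverse}

theorem cf_wrapP (P : Finset (T × T)) {L : Set (List T)} (h : IsCF L) : IsCF (wrapP P L) := by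
  classical
  obtain ⟨g₁, e₁⟩ := h
  have e₁' : Gen g₁ g₁.initial = L := e₁
  let g0 : ContextFreeGrammar T := ⟨PUnit, PUnit.unit, ∅⟩
  refine ext_cf g₁ g0 ({[Symbol.nonterminal (some (Sum.inl g₁.initial))]} ∪
    P.image
      (fun x => [Symbol.terminal x.1, Symbol.nonterminal none, Symbol.terminal x.2])) _ ?_ ?_
  · intro o ho w hw
    simp only [Finset.mem_union, Finset.mem_singleton, Finset.mem_image] at ho
    rcases ho with rfl | ⟨⟨b, c⟩, hP, rfl⟩
    · obtain ⟨w₁, w₂, rfl, h1, h2⟩ := hw
      simp only [Comp] at h2
      subst h2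
      refine ⟨[], by simp, w₁, ?_, by simp⟩
      rw [← e₁']; exact h1
    · obtain ⟨w', rfl, w₁, w₂, rfl, ⟨l, hl, m, hm, rfl⟩, w₃, rfl, h3⟩ := hw
      simp only [Comp] at h3
      subst h3
      refine ⟨(b, c) :: l, ?_, m, hm, by simp⟩
      intro x hx
      rcases List.mem_cons.1 hx with rfl | hx
      · exact hP
      · exact hl x hx
  · rintro S h1 _ hS w ⟨l, hl, m, hm, rfl⟩
    induction l with
    | nil =>
      refine hS [Symbol.nonterminal (some (Sum.inl g₁.initial))] (by simp) _ ?_
      refine ⟨m, [], by simp, h1 _ ?_, rfl⟩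
      rw [e₁']; exact hm
    | cons x l ih =>
      obtain ⟨b, c⟩ := x
      have h4 := ih (fun x hx => hl x (List.mem_cons_of_mem _ hx))
      refine hS [Symbol.terminal b, Symbol.nonterminal none, Symbol.terminal c] ?_ _ ?_
      · simp only [Finset.mem_union, Finset.mem_singleton, Finset.mem_image]
        exact Or.inr ⟨(b, c), hl _ List.mem_cons_self, rfl⟩
      · exact ⟨(l.map Prod.fst ++ m ++ (l.map Prod.snd).reverse) ++ [c], by simp, _, [c], rfl, h4,
          [], rfl, rfl⟩

/-- All words over a set of letters. -/
theorem cf_letters (X : Finset T) : IsCF (T := T) {w | ∀ a ∈ w, a ∈ X} := by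
  classical
  let g0 : ContextFreeGrammar T := ⟨PUnit, PUnit.unit, ∅⟩
  refine ext_cf g0 g0 ({[]} ∪ X.image
      (fun x => [Symbol.terminal x, Symbol.nonterminal none])) _ ?_ ?_
  · intro o ho w hw
    simp only [Finset.mem_union, Finset.mem_singleton, Finset.mem_image] at ho
    rcases ho with rfl | ⟨b, hb, rfl⟩
    · simp only [Comp] at hw
      subst hw
      intro a ha
      simp at ha
    · obtain ⟨w', rfl, w₁, w₂, rfl, h1, h2⟩ := hw
      simp only [Comp] at h2
      subst h2
      intro a ha
      rcases List.mem_cons.1 ha with rfl | ha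
      · exact hb
      · rw [List.append_nil] at ha
        exact h1 a ha
  · rintro S _ _ hS w hw
    induction w with
    | nil => exact hS [] (by simp) _ rfl
    | cons a w ih =>
      refine hS [Symbol.terminal a, Symbol.nonterminal none] ?_ _ ?_
      · simp only [Finset.mem_union, Finset.mem_singleton, Finset.mem_image]
        exact Or.inr ⟨a, hw a List.mem_cons_self, rfl⟩
      · exact ⟨w, rfl, w, [], by simp, ih (fun x hx => hw x (List.mem_cons_of_mem _ hx)), rfl⟩

/-- Images under injective letter maps. -/
theorem cf_map {A : Type} [Finite A] (f : T → A) (hf : Function.Injective f) {L : Set (List T)}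
    (h : IsCF L) : IsCF ((List.map f) '' L) := by
  classical
  have := Fintype.ofFinite A
  obtain ⟨g, e⟩ := h
  let inv : A → List T := fun a => if hx : ∃ t, f t = a then [hx.choose] else []
  let M : DFA A Bool := ⟨fun s a => s && decide (∃ t, f t = a), true, {true}⟩
  have hinv : ∀ t, inv (f t) = [t] := by
    intro t
    have hx : ∃ t', f t' = f t := ⟨t, rfl⟩
    simp only [inv, dif_pos hx]
    rw [hf hx.choose_spec]
  have key := Pool.Agent.Helper79.Trans.isContextFree_comap_inter inv M g
  have hM : ∀ (w : List A) (s : Bool), M.evalFrom s w = true ↔ (s = true ∧ ∀ a ∈ w, ∃ t, f t = a) := by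
    intro w
    induction w with
    | nil => intro s; simp [DFA.evalFrom]
    | cons a w ih =>
      intro s
      rw [DFA.evalFrom_cons, ih]
      simp only [M, Bool.and_eq_true, decide_eq_true_eq, List.mem_cons, forall_eq_or_imp]
      tauto
  have heq : ({w : List A | w.flatMap inv ∈ g.language ∧ w ∈ M.accepts} : Language A) =
      ((List.map f) '' L : Set (List A)) := by
    ext w
    constructor
    · rintro ⟨h1, h2⟩
      have h3 : ∀ a ∈ w, ∃ t, f t = a := by
        have : M.evalFrom true w = true := h2
        exact ((hM w true).1 this).2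
      refine ⟨w.flatMap inv, ?_, ?_⟩
      · have : w.flatMap inv ∈ (g.language : Set (List T)) := h1
        rw [e] at this
        exact this
      · clear h1 h2
        induction w with
        | nil => rfl
        | cons a w ih =>
          obtain ⟨t, rfl⟩ := h3 a List.mem_cons_self
          rw [List.flatMap_cons, hinv, List.singleton_append, List.map_cons,
            ih (fun x hx => h3 x (List.mem_cons_of_mem _ hx))]
    · rintro ⟨v, hv, rfl⟩
      refine ⟨?_, ?_⟩
      · have h1 : (v.map f).flatMap inv = v := by
          clear hv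
          induction v with
          | nil => rfl
          | cons a v ih => rw [List.map_cons, List.flatMap_cons, hinv, ih]; rfl
        rw [h1]
        have : v ∈ (g.language : Set (List T)) := by rw [e]; exact hv
        exact this
      · show M.evalFrom true (v.map f) = true
        rw [hM]
        refine ⟨rfl, ?_⟩
        intro a ha
        obtain ⟨t, _, rfl⟩ := List.mem_map.1 ha
        exact ⟨t, rfl⟩
  show Language.IsContextFree _
  rw [← heq]
  exact key

theorem cf_reverse {L : Set (List T)} (h : IsCF L) : IsCF {w | w.reverse ∈ L} := by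
  exact Language.IsContextFree.reverse (T := T) (L := L) h

end Pool.Agent.Helper925.SW
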