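import Pool.Agent.Helper925.SW.GNF

/-!
# A hardest context-free language (after Greibach)
-/

set_option autoImplicit false

namespace Pool.Agent.Helper925.SW

open Pool.Agent.Helper336.CF Pool.Agent.Helper79.Trans

/-- Brackets of two types. -/
inductive Br : Type
  | op (b : Bool)
  | cl (b : Bool)
  deriving DecidableEq, Fintype

/-- Reading brackets with a stack. -/
def run : List Br → List Bool → Option (List Bool)
  | [], s => some s
  | Br.op b :: v, s => run v (b :: s)
  | Br.cl _ :: _, [] => none
  | Br.cl b :: v, c :: s => if b = c then run v s else none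

theorem run_append (u v : List Br) (s : List Bool) : run (u ++ v) s = (run u s).bind (run v) := by
  induction u generalizing s with
  | nil => rfl
  | cons x u ih =>
    cases x with
    | op b => simp only [List.cons_append, run, ih]
    | cl b =>
      cases s with
      | nil => simp [run]
      | cons c s =>
        simp only [List.cons_append, run]
        split_ifs
        · exact ih s
        · rfl

theorem run_frame {v : List Br} {s t : List Bool} (h : run v s = some t) (r : List Bool) :
    run v (s ++ r) = some (t ++ r) := by
  induction v generalizing s with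
  | nil => simp only [run, Option.some.injEq] at h ⊢; rw [h]
  | cons x v ih =>
    cases x with
    | op b => exact ih (s := b :: s) h
    | cl b =>
      cases s with
      | nil => simp [run] at h
      | cons c s =>
        simp only [run, List.cons_append] at h ⊢
        split_ifs at h ⊢
        exact ih h

/-- Words of matching brackets. -/
def Dy : Set (List Br) := {v | run v [] = some []}

theorem run_split : ∀ (n : ℕ) (v : List Br) (b : Bool) (s : List Bool), v.length ≤ n →
    run v (b :: s) = some [] → ∃ v₁ v₂, v = v₁ ++ Br.cl b :: v₂ ∧ run v₁ [] = some [] ∧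
      run v₂ s = some [] := by
  intro n
  induction n with
  | zero =>
    intro v b s hv h
    have : v = [] := List.length_eq_zero_iff.1 (by omega)
    subst this
    simp [run] at h
  | succ n ih =>
    intro v b s hv h
    cases v with
    | nil => simp [run] at h
    | cons x v =>
      simp only [List.length_cons] at hv
      cases x with
      | op c =>
        obtain ⟨u₁, u₂, rfl, h1, h2⟩ := ih v c (b :: s) (by omega) h
        simp only [List.length_append, List.length_cons] at hv
        obtain ⟨w₁, w₂, rfl, h3, h4⟩ := ih u₂ b s (by omega) h2
        refine ⟨Br.op c :: u₁ ++ Br.cl c :: w₁, w₂, by simp, ?_, h4⟩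
        have h5 := run_frame h1 [c]
        simp only [List.nil_append] at h5
        simp only [List.cons_append, run, run_append, h5, Option.bind_some, if_true]
        exact h3
      | cl c =>
        simp only [run] at h
        split_ifs at h with h5
        subst h5
        exact ⟨[], v, rfl, rfl, h⟩

theorem dy_cf : IsCF Dy := by
  classical
  let g0 : ContextFreeGrammar Br := ⟨PUnit, PUnit.unit, ∅⟩
  refine ext_cf g0 g0 ({[]} ∪ (Finset.univ : Finset Bool).image
      (fun b => [Symbol.terminal (Br.op b), Symbol.nonterminal none,
        Symbol.terminal (Br.cl b), Symbol.nonterminal none])) _ ?_ ?_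
  · intro o ho w hw
    simp only [Finset.mem_union, Finset.mem_singleton, Finset.mem_image, Finset.mem_univ,
      true_and] at ho
    rcases ho with rfl | ⟨b, rfl⟩
    · simp only [Comp] at hw
      subst hw
      rfl
    · obtain ⟨w', rfl, w₁, w₂, rfl, h1, w₃, rfl, w₄, w₅, rfl, h4, h5⟩ := hw
      simp only [Comp] at h5
      subst h5
      have h1' : run w₁ [] = some [] := h1
      have h4' : run w₄ [] = some [] := h4
      have h6 := run_frame h1' [b]
      simp only [List.nil_append] at h6
      show run _ [] = some []
      simp only [run, run_append, h6, Option.bind_some, if_true, h4', List.append_nil]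
  · rintro S _ _ hS w hw
    have key : ∀ (n : ℕ) (w : List Br), w.length ≤ n → run w [] = some [] → w ∈ S none := by
      intro n
      induction n with
      | zero =>
        intro w hn hw
        have : w = [] := List.length_eq_zero_iff.1 (by omega)
        subst this
        exact hS [] (by simp) _ rfl
      | succ n ih =>
        intro w hn hw
        cases w with
        | nil => exact hS [] (by simp) _ rfl
        | cons x w =>
          simp only [List.length_cons] at hn
          cases x with
          | cl b => simp [run] at hw
          | op b =>
            obtain ⟨v₁, v₂, rfl, h1, h2⟩ := run_split _ w b [] le_rfl hw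
            simp only [List.length_append, List.length_cons] at hn
            refine hS [Symbol.terminal (Br.op b), Symbol.nonterminal none,
              Symbol.terminal (Br.cl b), Symbol.nonterminal none] (by
                simp only [Finset.mem_union, Finset.mem_singleton, Finset.mem_image,
                  Finset.mem_univ, true_and]
                exact Or.inr ⟨b, rfl⟩) _ ?_
            exact ⟨_, rfl, v₁, _, rfl, ih v₁ (by omega) h1, v₂, rfl, v₂, [], by simp,
              ih v₂ (by omega) h2, rfl⟩
    exact key _ w le_rfl hw

/-- The seven letters of the hardest language. -/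
inductive G7 : Type
  | br (x : Br)
  | bar
  | lt
  | rt
  deriving DecidableEq, Fintype

/-- Control states for reading blocks. -/
inductive Md : Type
  | out
  | pre
  | skp
  | real
  | post
  deriving DecidableEq, Fintype

open Md G7

/-- Letters of selected alternatives. -/
def tD : Finset (Md × Br × List G7 × Md) :=
  Finset.univ.image fun x : Br => (real, x, [br x], real)

/-- All other moves. -/
def tE : Finset (Md × List G7 × Md) :=
  {(out, [lt], pre), (pre, [], skp), (pre, [], real), (skp, [bar], pre), (real, [bar], post),
    (post, [bar], post), (post, [rt], out)} ∪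
  (Finset.univ.image fun x : Br => (skp, [br x], skp)) ∪
  (Finset.univ.image fun x : Br => (post, [br x], post))

/-- Blocks `⟨α₁|α₂|…|αₙ|⟩` such that the concatenation of one alternative of each block is a word
of matching brackets. -/
def L0 : Set (List G7) := {w | ∃ v ∈ Dy, Run tD tE out v w out}

theorem l0_cf : IsCF L0 := by
  obtain ⟨g, hg⟩ := dy_cf
  have hg' : ∀ v, v ∈ g.language ↔ v ∈ Dy := by
    intro v
    have : (g.language : Set (List Br)) = Dy := hg
    rw [← this]; exact Iff.rfl
  refine ⟨image tD tE g Finset.univ out {out}, ?_⟩
  ext w
  rw [image_language tD tE g Finset.univ out {out} (by simp) (by simp) (by simp)]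
  constructor
  · rintro ⟨v, hv, qf, hqf, h⟩
    rw [Finset.mem_singleton] at hqf
    subst hqf
    exact ⟨v, (hg' v).1 hv, h⟩
  · rintro ⟨v, hv, h⟩
    exact ⟨v, (hg' v).2 hv, out, by simp, h⟩

/-- Selecting one alternative of each block. -/
inductive Sel : Md → List Br → List G7 → Prop
  | nil : Sel out [] []
  | lt (v : List Br) (w : List G7) : Sel pre v w → Sel out v (G7.lt :: w)
  | preSkp (v : List Br) (w : List G7) : Sel skp v w → Sel pre v w
  | preReal (v : List Br) (w : List G7) : Sel real v w → Sel pre v w
  | skpBar (v : List Br) (w : List G7) : Sel pre v w → Sel skp v (bar :: w)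
  | skpBr (x : Br) (v : List Br) (w : List G7) : Sel skp v w → Sel skp v (br x :: w)
  | realBar (v : List Br) (w : List G7) : Sel post v w → Sel real v (bar :: w)
  | realBr (x : Br) (v : List Br) (w : List G7) : Sel real v w → Sel real (x :: v) (br x :: w)
  | postBar (v : List Br) (w : List G7) : Sel post v w → Sel post v (bar :: w)
  | postBr (x : Br) (v : List Br) (w : List G7) : Sel post v w → Sel post v (br x :: w)
  | postRt (v : List Br) (w : List G7) : Sel out v w → Sel post v (rt :: w)

theorem run_sel {q q' : Md} {v : List Br} {w : List G7} (h : Run tD tE q v w q') (hq : q' = out) :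
    Sel q v w := by
  induction h with
  | nil q => subst hq; exact Sel.nil
  | eps q w₁ p v w q' hE _ ih =>
    have ih := ih hq
    simp only [tE, Finset.mem_union, Finset.mem_insert, Finset.mem_singleton, Finset.mem_image,
      Finset.mem_univ, true_and, Prod.mk.injEq] at hE
    rcases hE with (hE | ⟨x, rfl, rfl, rfl⟩) | ⟨x, rfl, rfl, rfl⟩
    · rcases hE with ⟨rfl, rfl, rfl⟩ | ⟨rfl, rfl, rfl⟩ | ⟨rfl, rfl, rfl⟩ | ⟨rfl, rfl, rfl⟩ |
        ⟨rfl, rfl, rfl⟩ | ⟨rfl, rfl, rfl⟩ | ⟨rfl, rfl, rfl⟩
      · exact Sel.lt _ _ ih
      · exact Sel.preSkp _ _ ih
      · exact Sel.preReal _ _ ih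
      · exact Sel.skpBar _ _ ih
      · exact Sel.realBar _ _ ih
      · exact Sel.postBar _ _ ih
      · exact Sel.postRt _ _ ih
    · exact Sel.skpBr _ _ _ ih
    · exact Sel.postBr _ _ _ ih
  | read q b w₁ p v w q' hD _ ih =>
    have ih := ih hq
    simp only [tD, Finset.mem_image, Finset.mem_univ, true_and, Prod.mk.injEq] at hD
    obtain ⟨x, rfl, rfl, rfl, rfl⟩ := hD
    exact Sel.realBr _ _ _ ih

theorem sel_run {q : Md} {v : List Br} {w : List G7} (h : Sel q v w) : Run tD tE q v w out := by
  have hE : ∀ (q : Md) (w₁ : List G7) (p : Md) (v : List Br) (w : List G7), (q, w₁, p) ∈ tE →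
      Run tD tE p v w out → Run tD tE q v (w₁ ++ w) out := fun q w₁ p v w h1 h2 =>
    Run.eps q w₁ p v w out h1 h2
  induction h with
  | nil => exact Run.nil _
  | lt v w _ ih => exact hE out [G7.lt] pre v w (by simp [tE]) ih
  | preSkp v w _ ih => exact hE pre [] skp v w (by simp [tE]) ih
  | preReal v w _ ih => exact hE pre [] real v w (by simp [tE]) ih
  | skpBar v w _ ih => exact hE skp [bar] pre v w (by simp [tE]) ih
  | skpBr x v w _ ih => exact hE skp [br x] skp v w (by simp [tE]) ih
  | realBar v w _ ih => exact hE real [bar] post v w (by simp [tE]) ih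
  | realBr x v w _ ih =>
    exact Run.read real x [br x] real v w out (by simp [tD]) ih
  | postBar v w _ ih => exact hE post [bar] post v w (by simp [tE]) ih
  | postBr x v w _ ih => exact hE post [br x] post v w (by simp [tE]) ih
  | postRt v w _ ih => exact hE post [rt] out v w (by simp [tE]) ih

theorem mem_L0 (w : List G7) : w ∈ L0 ↔ ∃ v, run v [] = some [] ∧ Sel out v w :=
  ⟨fun ⟨v, h1, h2⟩ => ⟨v, h1, run_sel h2 rfl⟩, fun ⟨v, h1, h2⟩ => ⟨v, h1, sel_run h2⟩⟩

/-- The body of a block. -/
def body (l : List (List Br)) : List G7 := l.flatMap fun α => α.map br ++ [bar]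

/-- A block. -/
def block (l : List (List Br)) : List G7 := G7.lt :: body l ++ [rt]

theorem sel_post {v : List Br} {w : List G7} (l : List (List Br)) (h : Sel out v w) :
    Sel post v (body l ++ rt :: w) := by
  induction l with
  | nil => exact Sel.postRt _ _ h
  | cons α l ih =>
    simp only [body, List.flatMap_cons, List.append_assoc] at ih ⊢
    induction α with
    | nil => exact Sel.postBar _ _ ih
    | cons x α ihα => exact Sel.postBr _ _ _ ihα

theorem sel_pre {α v : List Br} {w : List G7} {l : List (List Br)} (hα : α ∈ l)
    (h : Sel out v w) : Sel pre (α ++ v) (body l ++ rt :: w) := by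
  induction l with
  | nil => simp at hα
  | cons β l ih =>
    rcases List.mem_cons.1 hα with rfl | hα'
    · apply Sel.preReal
      have h1 := sel_post l h
      simp only [body, List.flatMap_cons, List.append_assoc] at h1 ⊢
      clear ih hα
      induction α with
      | nil => exact Sel.realBar _ _ h1
      | cons x α ihα => exact Sel.realBr _ _ _ ihα
    · apply Sel.preSkp
      have h1 := ih hα'
      simp only [body, List.flatMap_cons, List.append_assoc] at h1 ⊢
      clear ih hα
      induction β with
      | nil => exact Sel.skpBar _ _ h1
      | cons x β ihβ => exact Sel.skpBr _ _ _ ihβ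

theorem sel_block {α v : List Br} {w : List G7} {l : List (List Br)} (hα : α ∈ l)
    (h : Sel out v w) : Sel out (α ++ v) (block l ++ w) := by
  have := Sel.lt _ _ (sel_pre hα h)
  simpa [block] using this

theorem post_inv {v : List Br} {w : List G7} (l : List (List Br))
    (h : Sel post v (body l ++ rt :: w)) : Sel out v w := by
  induction l with
  | nil =>
    cases h with
    | postRt _ _ h => exact h
  | cons α l ih =>
    simp only [body, List.flatMap_cons, List.append_assoc] at h ih
    induction α with
    | nil =>
      cases h with
      | postBar _ _ h => exact ih h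
    | cons x α ihα =>
      cases h with
      | postBr _ _ _ h => exact ihα h

theorem pre_inv {v : List Br} {w : List G7} (l : List (List Br))
    (h : Sel pre v (body l ++ rt :: w)) : ∃ α ∈ l, ∃ v', v = α ++ v' ∧ Sel out v' w := by
  induction l with
  | nil =>
    cases h with
    | preSkp _ _ h => cases h
    | preReal _ _ h => cases h
  | cons α l ih =>
    cases h with
    | preSkp _ _ h =>
      have h1 : Sel pre v (body l ++ rt :: w) := by
        simp only [body, List.flatMap_cons, List.append_assoc] at h ⊢
        clear ih
        induction α with
        | nil =>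
          cases h with
          | skpBar _ _ h => exact h
        | cons x α ihα =>
          cases h with
          | skpBr _ _ _ h => exact ihα h
      obtain ⟨β, hβ, v', h2, h3⟩ := ih h1
      exact ⟨β, List.mem_cons_of_mem _ hβ, v', h2, h3⟩
    | preReal _ _ h =>
      have h1 : ∃ v', v = α ++ v' ∧ Sel post v' (body l ++ rt :: w) := by
        simp only [body, List.flatMap_cons, List.append_assoc] at h ⊢
        clear ih
        induction α generalizing v with
        | nil =>
          cases h with
          | realBar _ _ h => exact ⟨v, rfl, h⟩
        | cons x α ihα =>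
          cases h with
          | realBr _ _ _ h =>
            obtain ⟨v', rfl, h2⟩ := ihα h
            exact ⟨v', rfl, h2⟩
      obtain ⟨v', h2, h3⟩ := h1
      exact ⟨α, List.mem_cons_self, v', h2, post_inv l h3⟩

theorem block_inv {v : List Br} {w : List G7} (l : List (List Br))
    (h : Sel out v (block l ++ w)) : ∃ α ∈ l, ∃ v', v = α ++ v' ∧ Sel out v' w := by
  simp only [block, List.cons_append, List.append_assoc, List.nil_append] at h
  cases h with
  | lt _ _ h => exact pre_inv l h

theorem nil_inv {v : List Br} (h : Sel out v []) : v = [] := by
  cases h; rfl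

end Pool.Agent.Helper925.SW
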