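import Pool.Agent.Helper925.SW.Gram
import Pool.Agent.W399.WP.Defs

/-!
# A Rees quotient of a free semigroup with a given context-free language in its word problem
-/

set_option autoImplicit false

namespace Pool.Agent.Helper925.SW

open Pool.Agent.Helper336.CF Pool.Agent.W399.WP

/-- The letters of `T` and three new letters. -/
inductive Lt (T : Type) : Type
  | t (a : T)
  | b
  | e
  | z

variable {T : Type}

instance [Finite T] : Finite (Lt T) := by
  let f : Lt T → Option (Option (Option T)) := fun x => match x with
    | .t a => some (some (some a))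
    | .b => some (some none)
    | .e => some none
    | .z => none
  refine Finite.of_injective f ?_
  intro x y h
  cases x <;> cases y <;> simp_all [f]

/-- The ideal of all words which contain the letter `z` or a factor `b w e` with `w ∈ L`. -/
def InI (L : Set (List T)) (u : List (Lt T)) : Prop :=
  Lt.z ∈ u ∨ ∃ (p s : List (Lt T)) (w : List T), w ∈ L ∧ u = p ++ (Lt.b :: w.map Lt.t ++ [Lt.e]) ++ s

theorem InI.append_left {L : Set (List T)} {u : List (Lt T)} (h : InI L u) (v : List (Lt T)) :
    InI L (v ++ u) := by
  rcases h with h | ⟨p, s, w, hw, rfl⟩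
  · exact Or.inl (List.mem_append_right _ h)
  · exact Or.inr ⟨v ++ p, s, w, hw, by simp⟩

theorem InI.append_right {L : Set (List T)} {u : List (Lt T)} (h : InI L u) (v : List (Lt T)) :
    InI L (u ++ v) := by
  rcases h with h | ⟨p, s, w, hw, rfl⟩
  · exact Or.inl (List.mem_append_left _ h)
  · exact Or.inr ⟨p, s ++ v, w, hw, by simp⟩

/-- A word of the form `b w e` is in the ideal only if `w ∈ L`. -/
theorem inI_iff (L : Set (List T)) (w : List T) :
    InI L (Lt.b :: w.map Lt.t ++ [Lt.e]) ↔ w ∈ L := by
  constructor
  · rintro (h | ⟨p, s, v, hv, h⟩)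
    · simp at h
    · cases p with
      | nil =>
        simp only [List.nil_append, List.cons_append, List.cons.injEq, true_and,
          List.append_assoc] at h
        have key : ∀ (w v : List T) (s : List (Lt T)),
            w.map Lt.t ++ [Lt.e] = v.map Lt.t ++ (Lt.e :: s) → w = v := by
          intro w
          induction w with
          | nil =>
            intro v s h
            cases v with
            | nil => rfl
            | cons a v => simp at h
          | cons c w ih =>
            intro v s h
            cases v with
            | nil => simp at h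
            | cons a v =>
              simp only [List.map_cons, List.cons_append, List.cons.injEq, Lt.t.injEq] at h
              rw [h.1, ih v s h.2]
        have := key w v s h
        rw [this]; exact hv
      | cons c p =>
        exfalso
        have h1 : Lt.b ∈ w.map Lt.t ++ [Lt.e] := by
          have : (w.map Lt.t ++ [Lt.e] : List (Lt T)) =
              p ++ (Lt.b :: v.map Lt.t ++ [Lt.e]) ++ s := by
            simp only [List.cons_append, List.cons.injEq] at h
            simpa using h.2
          rw [this]
          simp
        simp at h1
  · intro h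
    exact Or.inr ⟨[], [], w, h, by simp⟩

/-- The word of an element of the free semigroup. -/
def toL {A : Type} (x : FreeSemigroup A) : List A := x.head :: x.tail

theorem toL_mul {A : Type} (x y : FreeSemigroup A) : toL (x * y) = toL x ++ toL y := rfl

theorem toL_inj {A : Type} {x y : FreeSemigroup A} (h : toL x = toL y) : x = y := by
  obtain ⟨a, u⟩ := x
  obtain ⟨b, v⟩ := y
  simp only [toL, List.cons.injEq] at h
  obtain ⟨rfl, rfl⟩ := h
  rfl

/-- The Rees congruence of an ideal of words. -/
def rees {A : Type} (I : List A → Prop) (hl : ∀ u v, I u → I (v ++ u)) (hr : ∀ u v, I u → I (u ++ v)) :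
    Con (FreeSemigroup A) where
  r x y := x = y ∨ (I (toL x) ∧ I (toL y))
  iseqv := by
    refine ⟨fun x => Or.inl rfl, ?_, ?_⟩
    · rintro x y (h | h)
      · exact Or.inl h.symm
      · exact Or.inr ⟨h.2, h.1⟩
    · rintro x y z (h | h) (h' | h')
      · exact Or.inl (h.trans h')
      · subst h; exact Or.inr h'
      · subst h'; exact Or.inr h
      · exact Or.inr ⟨h.1, h'.2⟩
  mul' := by
    rintro w x y z (h | h) (h' | h')
    · subst h; subst h'; exact Or.inl rfl
    · subst h
      refine Or.inr ⟨?_, ?_⟩
      · rw [toL_mul]; exact hl _ _ h'.1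
      · rw [toL_mul]; exact hl _ _ h'.2
    · subst h'
      refine Or.inr ⟨?_, ?_⟩
      · rw [toL_mul]; exact hr _ _ h.1
      · rw [toL_mul]; exact hr _ _ h.2
    · refine Or.inr ⟨?_, ?_⟩
      · rw [toL_mul]; exact hr _ _ h.1
      · rw [toL_mul]; exact hr _ _ h.2

section general

variable {A : Type} (I : List A → Prop) (hl : ∀ u v, I u → I (v ++ u)) (hr : ∀ u v, I u → I (u ++ v))

/-- The Rees quotient of the free semigroup by the ideal `I`. -/
abbrev RQ : Type := (rees I hl hr).Quotient

/-- The value of a letter. -/
def phi (a : A) : RQ I hl hr := ((FreeSemigroup.of a : FreeSemigroup A) : (rees I hl hr).Quotient)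

theorem ev_eq (a : A) (u : List A) :
    ev (phi I hl hr) a u = ((⟨a, u⟩ : FreeSemigroup A) : (rees I hl hr).Quotient) := by
  induction u using List.reverseRecOn with
  | nil => rfl
  | append_singleton u c ih =>
    have h1 : ev (phi I hl hr) a (u ++ [c]) = ev (phi I hl hr) a u * phi I hl hr c := by
      simp [ev, List.foldl_append]
    rw [h1, ih]
    rfl

theorem ev_eq_iff (a b : A) (u v : List A) :
    ev (phi I hl hr) a u = ev (phi I hl hr) b v ↔
      (a :: u = b :: v ∨ (I (a :: u) ∧ I (b :: v))) := by
  rw [ev_eq, ev_eq, Con.eq]
  show (_ ∨ _) ↔ _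
  constructor
  · rintro (h | h)
    · left
      have := congrArg toL h
      exact this
    · exact Or.inr h
  · rintro (h | h)
    · exact Or.inl (toL_inj h)
    · exact Or.inr h

end general

end Pool.Agent.Helper925.SW
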