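import Pool.Agent.Helper925.SW.Sem

/-!
# The word problem of a Rees quotient by a context-free ideal is context-free
-/

set_option autoImplicit false

namespace Pool.Agent.Helper925.SW

open Pool.Agent.Helper336.CF Pool.Agent.W399.WP

theorem cf_all (T : Type) [Finite T] : IsCF (T := T) {_w | True} := by
  classical
  have := Fintype.ofFinite T
  have h := cf_letters (T := T) Finset.univ
  convert h using 1
  ext w
  simp

section general

variable {A : Type} (I : List A → Prop) (hl : ∀ u v, I u → I (v ++ u)) (hr : ∀ u v, I u → I (u ++ v))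

theorem mem_wp (w : List (Option A)) : w ∈ WordProblem (phi I hl hr) ↔
    ∃ u v : List A, u ≠ [] ∧ v ≠ [] ∧ (u = v ∨ (I u ∧ I v)) ∧
      w = u.map some ++ none :: (v.reverse).map some := by
  constructor
  · rintro ⟨a, b, u, v, h, rfl⟩
    rw [ev_eq_iff] at h
    exact ⟨a :: u, b :: v, by simp, by simp, h, rfl⟩
  · rintro ⟨u, v, hu, hv, h, rfl⟩
    obtain ⟨a, u, rfl⟩ := List.exists_cons_of_ne_nil hu
    obtain ⟨b, v, rfl⟩ := List.exists_cons_of_ne_nil hv
    exact ⟨a, b, u, v, (ev_eq_iff I hl hr a b u v).2 h, rfl⟩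

theorem wp_cf [Finite A] (hI : IsCF {u | I u}) (hne : ¬ I []) :
    (WordProblem (phi I hl hr)).IsContextFree := by
  classical
  have := Fintype.ofFinite A
  let P : Finset (Option A × Option A) := Finset.univ.image fun a : A => (some a, some a)
  let M : Finset (List (Option A)) := Finset.univ.image fun a : A => [some a, none, some a]
  have h1 : IsCF (wrapP P {w | w ∈ M}) := cf_wrapP P (cf_finite M)
  have hJ : IsCF ((List.map (some : A → Option A)) '' {u | I u}) :=
    cf_map _ (Option.some_injective A) hI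
  have h2 := cf_union h1 (cf_cat hJ (cf_cat (cf_singleton [none]) (cf_reverse hJ)))
  have heq : (WordProblem (phi I hl hr) : Set (List (Option A))) = wrapP P {w | w ∈ M} ∪
      cat ((List.map (some : A → Option A)) '' {u | I u})
        (cat {[none]} {w | w.reverse ∈ (List.map (some : A → Option A)) '' {u | I u}}) := by
    ext w
    have hw := mem_wp I hl hr w
    rw [show w ∈ (WordProblem (phi I hl hr) : Set (List (Option A))) ↔ _ from hw]
    constructor
    · rintro ⟨u, v, hu, hv, h | ⟨h, h'⟩, rfl⟩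
      · subst h
        left
        rcases List.eq_nil_or_concat u with rfl | ⟨u, a, rfl⟩
        · exact absurd rfl hu
        · refine ⟨u.map fun a => (some a, some a), ?_, [some a, none, some a], ?_, ?_⟩
          · intro x hx
            obtain ⟨c, _, rfl⟩ := List.mem_map.1 hx
            exact Finset.mem_image.2 ⟨c, Finset.mem_univ _, rfl⟩
          · exact Finset.mem_image.2 ⟨a, Finset.mem_univ _, rfl⟩
          · simp [Function.comp_def, List.map_reverse]
      · right
        refine ⟨u.map some, ⟨u, h, rfl⟩, none :: v.reverse.map some, ?_, rfl⟩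
        refine ⟨[none], rfl, v.reverse.map some, ?_, rfl⟩
        exact ⟨v, h', by simp [List.map_reverse]⟩
    · rintro (⟨l, hl', m, hm, rfl⟩ | ⟨_, ⟨u, hu, rfl⟩, _, ⟨_, rfl, v', ⟨v, hv, hv'⟩, rfl⟩, rfl⟩)
      · obtain ⟨a, _, rfl⟩ := Finset.mem_image.1 hm
        have h3 : ∃ u : List A, l = u.map fun a => (some a, some a) := by
          clear hm hw
          induction l with
          | nil => exact ⟨[], rfl⟩
          | cons x l ih =>
            obtain ⟨u, rfl⟩ := ih (fun x hx => hl' x (List.mem_cons_of_mem _ hx))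
            obtain ⟨c, _, rfl⟩ := Finset.mem_image.1 (hl' x List.mem_cons_self)
            exact ⟨c :: u, rfl⟩
        obtain ⟨u, rfl⟩ := h3
        refine ⟨u ++ [a], u ++ [a], by simp, by simp, Or.inl rfl, ?_⟩
        simp [Function.comp_def, List.map_reverse]
      · refine ⟨u, v, ?_, ?_, Or.inr ⟨hu, hv⟩, ?_⟩
        · rintro rfl; exact hne hu
        · rintro rfl; exact hne hv
        · have : v' = v.reverse.map some := by
            rw [List.map_reverse, hv', List.reverse_reverse]
          rw [this]; rfl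
  have h4 : IsCF (WordProblem (phi I hl hr) : Set (List (Option A))) := by
    rw [heq]; exact h2
  exact h4

end general

variable {T : Type}

theorem not_inI_nil (L : Set (List T)) : ¬ InI L [] := by
  rintro (h | ⟨p, s, w, _, h⟩)
  · simp at h
  · simp at h

theorem inI_cf [Finite T] {L : Set (List T)} (h : IsCF L) : IsCF {u | InI L u} := by
  have hS := cf_all (Lt T)
  have hL : IsCF ((List.map (Lt.t : T → Lt T)) '' L) :=
    cf_map _ (fun a b h => by injection h) h
  have h2 := cf_union (cf_cat hS (cf_cat (cf_singleton [Lt.z]) hS))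
    (cf_cat hS (cf_cat (cf_singleton [Lt.b]) (cf_cat hL (cf_cat (cf_singleton [Lt.e]) hS))))
  convert h2 using 1
  ext u
  constructor
  · rintro (h | ⟨p, s, w, hw, rfl⟩)
    · left
      obtain ⟨p, s, rfl⟩ := List.append_of_mem h
      exact ⟨p, trivial, Lt.z :: s, ⟨[Lt.z], rfl, s, trivial, rfl⟩, rfl⟩
    · right
      refine ⟨p, trivial, _, ⟨[Lt.b], rfl, _, ⟨w.map Lt.t, ⟨w, hw, rfl⟩, _,
        ⟨[Lt.e], rfl, s, trivial, rfl⟩, rfl⟩, rfl⟩, ?_⟩
      simp
  · rintro (⟨p, _, _, ⟨_, rfl, s, _, rfl⟩, rfl⟩ |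
      ⟨p, _, _, ⟨_, rfl, _, ⟨_, ⟨w, hw, rfl⟩, _, ⟨_, rfl, s, _, rfl⟩, rfl⟩, rfl⟩, rfl⟩)
    · left; simp
    · right
      exact ⟨p, s, w, hw, by simp⟩

end Pool.Agent.Helper925.SW
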